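import Pool.Agent.R290.CF1

/-!
Step A: elements `X` of the twisted group algebra with `‖X δ‖ = 1` and `‖X X* δ‖` large.
-/

namespace Pool.Agent.R290.CF

open scoped InnerProductSpace ComplexConjugate
set_option linter.unusedSectionVars false
open Complex

lemma exists_seq {G : Type*} [Group G] [Infinite G] (B : Set G) (hB : B.Finite) :
    ∃ h : ℕ → G, ∀ j i, j < i → (h j)⁻¹ * h i ∉ B ∧ (h i)⁻¹ * h j ∉ B := by
  obtain ⟨f, -, hf⟩ := exists_seq_of_forall_finset_exists (fun _ : G => True)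
    (fun x y => x⁻¹ * y ∉ B ∧ y⁻¹ * x ∉ B) (by
      intro s _
      have h1 : (⋃ x ∈ s, ((fun b => x * b) '' B ∪ (fun b => x * b⁻¹) '' B)).Finite := by
        refine Set.Finite.biUnion s.finite_toSet ?_
        intro x _
        exact (hB.image _).union (hB.image _)
      obtain ⟨y, hy⟩ := h1.exists_notMem
      refine ⟨y, trivial, ?_⟩
      intro x hx
      constructor
      · intro h2
        apply hy
        refine Set.mem_biUnion hx (Or.inl ⟨_, h2, ?_⟩)
        simp
      · intro h2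
        apply hy
        refine Set.mem_biUnion hx (Or.inr ⟨_, h2, ?_⟩)
        simp)
  exact ⟨f, hf⟩

variable {G : Type*} [Group G] {H : Type*} [NormedAddCommGroup H] [InnerProductSpace ℂ H]
  [CompleteSpace H]

namespace Sys

variable {σ : G → G → ℂ} {u : G → H →L[ℂ] H} {δ : H} (S : Sys σ u δ)

include S

lemma norm_conj_u (X : H →L[ℂ] H) (g h : G) :
    ‖(X * (star (u h) * u g) * star X) δ‖ = ‖(X * u (h⁻¹ * g) * star X) δ‖ := by
  rw [S.star_u, smul_mul_assoc, S.mul, smul_smul, mul_smul_comm, smul_mul_assoc, smul_apply,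
    norm_smul, norm_mul, RCLike.norm_conj, S.norm_σ, S.norm_σ, one_mul, one_mul]

lemma exists_good [Infinite G] {X : H →L[ℂ] H} (hX : X ∈ Alg u) (h1 : ‖X δ‖ = 1)
    (B : Set G) (hB : B.Finite) :
    ∃ k ∉ B, 1 / 2 ≤ ‖(X * u k * star X) δ‖ ^ 2 := by
  by_contra hcon
  push Not at hcon
  obtain ⟨h, hh⟩ := exists_seq B hB
  set K := ‖(X * star X) δ‖ ^ 2 with hK
  obtain ⟨N, hN⟩ := exists_nat_gt (2 * K)
  set v : ℕ → H := fun i => (u (h i) * (star X * X) * star (u (h i))) δ with hv
  have hXs := S.star_mem hX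
  have hu : ∀ g, star (u g) ∈ Alg u := fun g => S.star_mem (u_mem g)
  -- inner products
  have e1 : ∀ i, ⟪δ, v i⟫_ℂ = 1 := by
    intro i
    simp only [hv]
    rw [mul_assoc, S.trace (u_mem _) (S.mul_mem (S.mul_mem hXs hX) (hu _)), mul_assoc,
      S.star_mul_self, mul_one, ← inner_star, inner_self_eq_norm_sq_to_K, h1]
    simp
  have e2 : ∀ i j, ⟪v i, v j⟫_ℂ = ((‖(X * (star (u (h j)) * u (h i)) * star X) δ‖ ^ 2 : ℝ) : ℂ) := by
    intro i j
    simp only [hv]
    rw [inner_star]
    have h3 : star (u (h i) * (star X * X) * star (u (h i))) *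
        (u (h j) * (star X * X) * star (u (h j))) =
        (u (h i) * star X) * (X * star (u (h i)) * u (h j) * star X * X * star (u (h j))) := by
      simp only [star_mul, star_star, mul_assoc]
    rw [h3, S.trace (S.mul_mem (u_mem _) hXs) (S.mul_mem (S.mul_mem (S.mul_mem (S.mul_mem
      (S.mul_mem hX (hu _)) (u_mem _)) hXs) hX) (hu _))]
    have h4 : X * star (u (h i)) * u (h j) * star X * X * star (u (h j)) * (u (h i) * star X) =
        star (X * (star (u (h j)) * u (h i)) * star X) *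
          (X * (star (u (h j)) * u (h i)) * star X) := by
      simp only [star_mul, star_star, mul_assoc]
    rw [h4, ← inner_star, inner_self_eq_norm_sq_to_K]
    push_cast
    rfl
  have e3 : ‖∑ i ∈ Finset.range N, v i‖ ^ 2 =
      ∑ i ∈ Finset.range N, ∑ j ∈ Finset.range N,
        ‖(X * (star (u (h j)) * u (h i)) * star X) δ‖ ^ 2 := by
    rw [← @inner_self_eq_norm_sq ℂ, sum_inner]
    simp only [inner_sum, e2]
    rw [map_sum]
    simp only [map_sum]
    exact Finset.sum_congr rfl fun i _ => Finset.sum_congr rfl fun j _ => Complex.ofReal_re _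
  have e4 : ∀ i j, ‖(X * (star (u (h j)) * u (h i)) * star X) δ‖ ^ 2 ≤
      (if i = j then K else 0) + 1 / 2 := by
    intro i j
    split_ifs with hij
    · subst hij
      rw [S.star_mul_self, mul_one]
      linarith
    · rw [S.norm_conj_u, zero_add]
      have h5 : (h j)⁻¹ * h i ∉ B := by
        rcases lt_or_gt_of_ne hij with h6 | h6
        · exact (hh i j h6).2
        · exact (hh j i h6).1
      exact (hcon _ h5).le
  have e5 : ‖∑ i ∈ Finset.range N, v i‖ ^ 2 ≤ N * K + N * (N * (1 / 2)) := by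
    rw [e3]
    calc _ ≤ ∑ i ∈ Finset.range N, ∑ j ∈ Finset.range N, ((if i = j then K else 0) + 1 / 2) :=
          Finset.sum_le_sum fun i _ => Finset.sum_le_sum fun j _ => e4 i j
      _ = ∑ i ∈ Finset.range N, (K + N * (1 / 2)) := by
          refine Finset.sum_congr rfl fun i hi => ?_
          rw [Finset.sum_add_distrib, Finset.sum_ite_eq, if_pos hi]
          simp
      _ = _ := by
          rw [Finset.sum_const, Finset.card_range, nsmul_eq_mul]
          ring
  have e6 : (N : ℝ) ≤ ‖∑ i ∈ Finset.range N, v i‖ := by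
    have h6 : ⟪δ, ∑ i ∈ Finset.range N, v i⟫_ℂ = N := by
      rw [inner_sum]
      simp only [e1]
      simp
    have h7 := norm_inner_le_norm (𝕜 := ℂ) δ (∑ i ∈ Finset.range N, v i)
    rw [h6, S.norm_δ, one_mul] at h7
    simpa using h7
  have hK0 : 0 ≤ K := by positivity
  have hNpos : (0:ℝ) < N := by linarith
  have e7 : (N:ℝ) ^ 2 ≤ N * K + N * (N * (1 / 2)) := by
    refine le_trans ?_ e5
    exact pow_le_pow_left₀ hNpos.le e6 2
  nlinarith

lemma step [Infinite G] {X : H →L[ℂ] H} (hX : X ∈ Alg u) (h1 : ‖X δ‖ = 1) :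
    ∃ X' ∈ Alg u, ‖X' δ‖ = 1 ∧
      ‖(X * star X) δ‖ ^ 2 + 1 / 4 ≤ ‖(X' * star X') δ‖ ^ 2 := by
  have hXs := S.star_mem hX
  set W := star X * X with hW
  have hWm : W ∈ Alg u := S.mul_mem hXs hX
  have hWs : star W = W := by rw [hW, star_mul, star_star]
  obtain ⟨k, hk, hk2⟩ := S.exists_good hX h1
    ({k : G | ⟪δ, (W * u k) δ⟫_ℂ ≠ 0} ∪ {k : G | ⟪δ, (W * W * u k) δ⟫_ℂ ≠ 0})
    ((S.finite_tr hWm).union (S.finite_tr (S.mul_mem hWm hWm)))
  simp only [Set.mem_union, Set.mem_ofPred_eq, not_or, not_not] at hk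
  obtain ⟨hk0, hk1⟩ := hk
  set y := (X * u k * star X) δ with hy
  set y' := (X * star (u k) * star X) δ with hy'
  set p := (X * star X) δ with hp
  have hyy : ‖y'‖ = ‖y‖ := by
    have : star (X * u k * star X) = X * star (u k) * star X := by
      simp only [star_mul, star_star, mul_assoc]
    rw [hy, hy', ← this]
    exact S.norm_star (S.mul_mem (S.mul_mem hX (u_mem _)) hXs)
  obtain ⟨ω, hω, hre⟩ : ∃ ω : ℂ, conj ω * ω = 1 ∧ 0 ≤ (⟪ω • y, conj ω • y'⟫_ℂ).re := by
    rcases le_total 0 (⟪y, y'⟫_ℂ).re with h2 | h2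
    · refine ⟨1, by simp, ?_⟩
      simpa using h2
    · refine ⟨I, by simp, ?_⟩
      rw [inner_smul_left, inner_smul_right, ← mul_assoc]
      have : (starRingEnd ℂ) I * (starRingEnd ℂ) I = -1 := by
        rw [Complex.conj_I]
        linear_combination I_mul_I
      rw [this]
      simpa using h2
  have hω2 : ω * conj ω = 1 := by rw [mul_comm]; exact hω
  set q := ω • y + conj ω • y' with hq
  -- orthogonality
  have o1 : ⟪p, y⟫_ℂ = 0 := by
    rw [hp, hy, inner_star]
    have : star (X * star X) * (X * u k * star X) = X * (W * u k * star X) := by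
      rw [hW]; simp only [star_mul, star_star, mul_assoc]
    rw [this, S.trace hX (S.mul_mem (S.mul_mem hWm (u_mem _)) hXs)]
    have : W * u k * star X * X = W * (u k * W) := by rw [hW]; simp only [mul_assoc]
    rw [this, S.trace hWm (S.mul_mem (u_mem _) hWm), mul_assoc,
      S.trace (u_mem _) (S.mul_mem hWm hWm)]
    exact hk1
  have o2 : ⟪y', p⟫_ℂ = 0 := by
    rw [hp, hy', inner_star]
    have : star (X * star (u k) * star X) * (X * star X) = X * (u k * W * star X) := by
      rw [hW]; simp only [star_mul, star_star, mul_assoc]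
    rw [this, S.trace hX (S.mul_mem (S.mul_mem (u_mem _) hWm) hXs)]
    have : u k * W * star X * X = u k * (W * W) := by rw [hW]; simp only [mul_assoc]
    rw [this, S.trace (u_mem _) (S.mul_mem hWm hWm)]
    exact hk1
  have o3 : ⟪p, q⟫_ℂ = 0 := by
    rw [hq, inner_add_right, inner_smul_right, inner_smul_right, o1,
      ← inner_conj_symm, o2]
    simp
  have hq2 : 1 ≤ ‖q‖ ^ 2 := by
    have h3 := @norm_add_sq ℂ _ _ _ _ (ω • y) (conj ω • y')
    have hn : ‖ω‖ = 1 := by
      have h4 : ‖conj ω * ω‖ = 1 := by rw [hω]; simp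
      rw [norm_mul, RCLike.norm_conj] at h4
      nlinarith [norm_nonneg ω]
    rw [norm_smul, norm_smul, RCLike.norm_conj, hn, one_mul, one_mul, hyy] at h3
    have h5 : 0 ≤ RCLike.re ⟪ω • y, conj ω • y'⟫_ℂ := hre
    rw [hq, h3]
    linarith
  -- the new element
  set V : H →L[ℂ] H := 1 + ω • u k with hV
  have hVm : V ∈ Alg u := (Alg u).add_mem S.one_mem ((Alg u).smul_mem _ (u_mem _))
  have hVV : V * star V = (2 : ℂ) • (1 : H →L[ℂ] H) + (ω • u k + conj ω • star (u k)) := by
    rw [hV, star_add, star_one, star_smul, add_mul, mul_add, mul_add, one_mul, one_mul, mul_one,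
      smul_mul_smul_comm, S.mul_star_self]
    have : ω * star ω = 1 := hω2
    rw [this, one_smul, two_smul]
    have : star ω = conj ω := rfl
    rw [this]
    abel
  set c : ℂ := ((√2 : ℝ) : ℂ)⁻¹ with hc
  have hcc : conj c = c := by
    rw [hc, map_inv₀, Complex.conj_ofReal]
  have hc2 : c * c = 1 / 2 := by
    rw [hc, ← mul_inv, ← Complex.ofReal_mul, Real.mul_self_sqrt (by norm_num)]
    norm_num
  have hcn : ‖c‖ ^ 2 = 1 / 2 := by
    rw [sq, ← norm_mul, hc2]
    norm_num
  refine ⟨c • (X * V), (Alg u).smul_mem _ (S.mul_mem hX hVm), ?_, ?_⟩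
  · have h3 : ‖(c • (X * V)) δ‖ ^ 2 = 1 := by
      rw [smul_apply, norm_smul, mul_pow, hcn]
      have h4 : (X * V) δ = X δ + ω • (X * u k) δ := by
        rw [hV, mul_add, mul_one, mul_smul_comm, add_apply, smul_apply]
      have h5 : ⟪X δ, (X * u k) δ⟫_ℂ = 0 := by
        rw [inner_star, ← mul_assoc]
        exact hk0
      have h6 : ‖(X * u k) δ‖ = 1 := by
        rw [mul_apply_eq_comp, S.norm_mul_u hX, h1]
      have hn : ‖ω‖ = 1 := by
        have h4 : ‖conj ω * ω‖ = 1 := by rw [hω]; simp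
        rw [norm_mul, RCLike.norm_conj] at h4
        nlinarith [norm_nonneg ω]
      rw [h4, @norm_add_sq ℂ, inner_smul_right, h5, norm_smul, h1, h6, hn]
      norm_num
    nlinarith [norm_nonneg ((c • (X * V)) δ)]
  · have h3 : (c • (X * V)) * star (c • (X * V)) =
        (X * star X) + (1 / 2 : ℂ) • (ω • (X * u k * star X) +
          conj ω • (X * star (u k) * star X)) := by
      rw [star_smul, star_mul, smul_mul_smul_comm]
      have : star c = c := hcc
      rw [this, hc2]
      have : X * V * (star V * star X) = X * (V * star V) * star X := by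
        simp only [mul_assoc]
      rw [this, hVV]
      simp only [mul_add, add_mul, mul_smul_comm, smul_mul_assoc, mul_one, smul_add, smul_smul]
      norm_num
    have h4 : ((c • (X * V)) * star (c • (X * V))) δ = p + (1 / 2 : ℂ) • q := by
      rw [h3]
      rfl
    rw [h4, @norm_add_sq ℂ, inner_smul_right, o3, norm_smul]
    have h5 : ‖(1 / 2 : ℂ)‖ = 1 / 2 := by norm_num
    rw [h5, mul_pow]
    simp only [mul_zero, map_zero, add_zero]
    linarith

/-- Step A. -/
lemma exists_large [Infinite G] (R : ℝ) :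
    ∃ X ∈ Alg u, ‖X δ‖ = 1 ∧ R ≤ ‖(X * star X) δ‖ := by
  have key : ∀ n : ℕ, ∃ X ∈ Alg u, ‖X δ‖ = 1 ∧ (n : ℝ) / 4 ≤ ‖(X * star X) δ‖ ^ 2 := by
    intro n
    induction n with
    | zero =>
      refine ⟨1, S.one_mem, ?_, ?_⟩
      · rw [one_apply_eq_self, S.norm_δ]
      · simp only [Nat.cast_zero, zero_div]
        positivity
    | succ n ih =>
      obtain ⟨X, hX, h1, h2⟩ := ih
      obtain ⟨X', hX', h3, h4⟩ := S.step hX h1
      refine ⟨X', hX', h3, ?_⟩
      have h5 : ((n + 1 : ℕ) : ℝ) / 4 = n / 4 + 1 / 4 := by push_cast; ring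
      rw [h5]
      linarith
  obtain ⟨n, hn⟩ := exists_nat_gt (4 * R ^ 2)
  obtain ⟨X, hX, h1, h2⟩ := key n
  refine ⟨X, hX, h1, ?_⟩
  by_contra hcon
  push Not at hcon
  have h3 := norm_nonneg ((X * star X) δ)
  nlinarith

end Sys

end Pool.Agent.R290.CF
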