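import Pool.Agent.R290.CF2

/-!
Steps B and C: the truncations of Fourier series are not uniformly bounded.
-/

namespace Pool.Agent.R290.CF

open scoped InnerProductSpace ComplexConjugate
set_option linter.unusedSectionVars false
open Complex

variable {G : Type*} [Group G] {H : Type*} [NormedAddCommGroup H] [InnerProductSpace ℂ H]
  [CompleteSpace H]

namespace Sys

variable {σ : G → G → ℂ} {u : G → H →L[ℂ] H} {δ : H} (S : Sys σ u δ)

include S

lemma norm_sum_sq (F : Finset G) (c : G → ℂ) :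
    ‖(∑ g ∈ F, c g • u g) δ‖ ^ 2 = ∑ g ∈ F, ‖c g‖ ^ 2 := by
  rw [← @inner_self_eq_norm_sq ℂ, sum_apply]
  simp only [smul_apply]
  rw [S.orthonormal.inner_sum, map_sum]
  refine Finset.sum_congr rfl fun g _ => ?_
  rw [← Complex.normSq_eq_conj_mul_self, Complex.normSq_eq_norm_sq]
  exact Complex.ofReal_re _

lemma sum_mem (F : Finset G) (c : G → ℂ) : ∑ g ∈ F, c g • u g ∈ Alg u :=
  Submodule.sum_mem _ fun g _ => (Alg u).smul_mem _ (u_mem g)

/-- Step B: good signs. -/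
lemma exists_signs (F : Finset G) (c : G → ℂ) : ∃ ε : G → ℝ, (∀ g, ε g = 1 ∨ ε g = -1) ∧
    ‖(star (∑ g ∈ F, ((ε g : ℂ) * c g) • u g) * (∑ g ∈ F, ((ε g : ℂ) * c g) • u g)) δ‖ ^ 2 ≤
      3 * (∑ g ∈ F, ‖c g‖ ^ 2) ^ 2 := by
  classical
  induction F using Finset.induction_on with
  | empty => exact ⟨fun _ => 1, fun _ => Or.inl rfl, by simp⟩
  | insert g F hg ih =>
    obtain ⟨ε, hε, h1⟩ := ih
    set x := ∑ g ∈ F, ((ε g : ℂ) * c g) • u g with hx
    set m := ∑ g ∈ F, ‖c g‖ ^ 2 with hm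
    have hxm : x ∈ Alg u := S.sum_mem F (fun g => (ε g : ℂ) * c g)
    have hxn : ‖x δ‖ ^ 2 = m := by
      rw [hx, S.norm_sum_sq F (fun g => (ε g : ℂ) * c g)]
      refine Finset.sum_congr rfl fun g _ => ?_
      rcases hε g with h | h <;> rw [h] <;> simp
    set y : H →L[ℂ] H := c g • u g with hy
    set p := (star x * x) δ + ((‖c g‖ ^ 2 : ℝ) : ℂ) • δ with hp
    set q := (star x * y) δ + (star y * x) δ with hq
    have hxx : ∀ s : ℂ, s * s = 1 → conj s = s → (star (x + s • y) * (x + s • y)) δ = p + s • q := by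
      intro s hs1 hs2
      have h2 : star y * y = ((‖c g‖ ^ 2 : ℝ) : ℂ) • 1 := by
        rw [hy, star_smul, smul_mul_smul_comm, S.star_mul_self]
        congr 1
        have : star (c g) * c g = conj (c g) * c g := rfl
        rw [this, ← Complex.normSq_eq_conj_mul_self, Complex.normSq_eq_norm_sq]
      have h3 : star (x + s • y) * (x + s • y) =
          (star x * x + star y * y) + s • (star x * y + star y * x) := by
        rw [star_add, star_smul]
        have : star s = s := hs2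
        rw [this, add_mul, mul_add, mul_add, smul_mul_smul_comm, hs1, one_smul, mul_smul_comm,
          smul_mul_assoc, smul_add]
        abel
      rw [h3, h2]
      rfl
    have hp2 : ‖p‖ ^ 2 = ‖(star x * x) δ‖ ^ 2 + 2 * ‖c g‖ ^ 2 * m + ‖c g‖ ^ 4 := by
      rw [hp, @norm_add_sq ℂ, inner_smul_right]
      have h2 : ⟪(star x * x) δ, δ⟫_ℂ = (m : ℂ) := by
        rw [mul_apply_eq_comp, inner_star', star_star, inner_self_eq_norm_sq_to_K, ← hxn]
        push_cast
        rfl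
      rw [h2, norm_smul, S.norm_δ]
      have h3 : RCLike.re (((‖c g‖ ^ 2 : ℝ) : ℂ) * (m : ℂ)) = ‖c g‖ ^ 2 * m := by
        rw [← Complex.ofReal_mul]
        exact Complex.ofReal_re _
      rw [h3, Complex.norm_real, Real.norm_of_nonneg (by positivity)]
      ring
    have hq2 : ‖q‖ ^ 2 ≤ 4 * ‖c g‖ ^ 2 * m := by
      have h2 : ‖(star x * y) δ‖ = ‖c g‖ * ‖x δ‖ := by
        rw [mul_apply_eq_comp, hy, smul_apply, map_smul, norm_smul,
          S.norm_mul_u (S.star_mem hxm), S.norm_star hxm]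
      have h3 : ‖(star y * x) δ‖ = ‖c g‖ * ‖x δ‖ := by
        rw [mul_apply_eq_comp, hy, star_smul, smul_apply, norm_smul, S.star_u, smul_apply,
          norm_smul, RCLike.norm_conj, S.norm_σ, one_mul, S.iso, _root_.norm_star]
      have h4 : ‖q‖ ≤ 2 * (‖c g‖ * ‖x δ‖) := by
        rw [hq]
        refine (norm_add_le _ _).trans ?_
        rw [h2, h3]
        linarith
      calc ‖q‖ ^ 2 ≤ (2 * (‖c g‖ * ‖x δ‖)) ^ 2 := pow_le_pow_left₀ (norm_nonneg _) h4 2
        _ = 4 * ‖c g‖ ^ 2 * ‖x δ‖ ^ 2 := by ring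
        _ = _ := by rw [hxn]
    have hm0 : 0 ≤ m := Finset.sum_nonneg fun g _ => by positivity
    have hfin : ‖p‖ ^ 2 + ‖q‖ ^ 2 ≤ 3 * (‖c g‖ ^ 2 + m) ^ 2 := by
      have h5 : 0 ≤ ‖c g‖ ^ 4 := by positivity
      nlinarith
    obtain ⟨s, hs, hs2⟩ : ∃ s : ℝ, (s = 1 ∨ s = -1) ∧ ‖p + (s : ℂ) • q‖ ^ 2 ≤ ‖p‖ ^ 2 + ‖q‖ ^ 2 := by
      have h6 := parallelogram_law_with_norm ℂ p q
      rcases le_total (‖p + q‖ ^ 2) (‖p‖ ^ 2 + ‖q‖ ^ 2) with h7 | h7
      · exact ⟨1, Or.inl rfl, by simpa using h7⟩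
      · refine ⟨-1, Or.inr rfl, ?_⟩
        have h8 : p + ((-1 : ℝ) : ℂ) • q = p - q := by
          push_cast
          rw [neg_smul, one_smul, sub_eq_add_neg]
        rw [h8]
        nlinarith
    refine ⟨fun h => if h = g then s else ε h, ?_, ?_⟩
    · intro h
      simp only
      split_ifs
      · exact hs
      · exact hε h
    · have h9 : ∑ h ∈ insert g F, ((((if h = g then s else ε h) : ℝ) : ℂ) * c h) • u h =
          x + (s : ℂ) • y := by
        rw [Finset.sum_insert hg, if_pos rfl, add_comm, hx, hy, smul_smul]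
        congr 1
        refine Finset.sum_congr rfl fun h hh => ?_
        rw [if_neg]
        rintro rfl
        exact hg hh
      rw [h9, Finset.sum_insert hg, hxx (s : ℂ)]
      · exact hs2.trans hfin
      · rcases hs with h | h <;> rw [h] <;> simp
      · exact Complex.conj_ofReal s

/-- the star subalgebra -/
def starAlg : StarSubalgebra ℂ (H →L[ℂ] H) where
  carrier := Alg u
  mul_mem' := S.mul_mem
  one_mem' := S.one_mem
  add_mem' := (Alg u).add_mem
  zero_mem' := (Alg u).zero_mem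
  algebraMap_mem' c := by
    rw [Algebra.algebraMap_eq_smul_one]
    exact (Alg u).smul_mem _ S.one_mem
  star_mem' := S.star_mem

/-- Step C: bounded elements with large overlap. -/
lemma exists_bounded {x : H →L[ℂ] H} (hx : x ∈ Alg u) :
    ∃ z ∈ closure (Alg u : Set (H →L[ℂ] H)), ‖z‖ ≤ 1 / 2 ∧
      ‖x δ‖ ^ 2 - ‖(star x * x) δ‖ ^ 2 ≤ (⟪x δ, z δ⟫_ℂ).re := by
  set T : H →L[ℂ] H := 1 + star x * x with hT
  have hTm : T ∈ Alg u := (Alg u).add_mem S.one_mem (S.mul_mem (S.star_mem hx) hx)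
  have hTu : IsUnit T := by
    have h1 : (1 : H →L[ℂ] H) ≤ T := le_add_of_nonneg_right (star_mul_self_nonneg x)
    exact CStarAlgebra.isUnit_of_le 1 h1
  set SS := S.starAlg.topologicalClosure with hSS
  have : IsClosed (SS : Set (H →L[ℂ] H)) := S.starAlg.isClosed_topologicalClosure
  have hle : S.starAlg ≤ SS := S.starAlg.le_topologicalClosure
  have hcl : (SS : Set (H →L[ℂ] H)) = closure (Alg u : Set (H →L[ℂ] H)) :=
    S.starAlg.topologicalClosure_coe
  have hTu' : IsUnit (⟨T, hle hTm⟩ : SS) := SS.coe_isUnit.1 hTu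
  obtain ⟨⟨a, b, hab, hba⟩, ha⟩ := hTu'
  simp only at ha
  subst ha
  set B : H →L[ℂ] H := b.1 with hB
  have hBm : B ∈ SS := b.2
  have e1 : T * B = 1 := congrArg Subtype.val hab
  have e2 : B * T = 1 := congrArg Subtype.val hba
  -- the basic estimates
  have hest : ∀ η : H, 4 * ‖x η‖ ^ 2 ≤ ‖T η‖ ^ 2 ∧ ‖η‖ ^ 2 ≤ ‖T η‖ ^ 2 := by
    intro η
    have h1 : T η = η + (star x * x) η := by rw [hT]; rfl
    have h2 : ⟪η, (star x * x) η⟫_ℂ = ((‖x η‖ ^ 2 : ℝ) : ℂ) := by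
      rw [← inner_star, inner_self_eq_norm_sq_to_K]
      push_cast
      rfl
    have h3 : ‖T η‖ ^ 2 = ‖η‖ ^ 2 + 2 * ‖x η‖ ^ 2 + ‖(star x * x) η‖ ^ 2 := by
      rw [h1, @norm_add_sq ℂ, h2]
      have : RCLike.re (((‖x η‖ ^ 2 : ℝ) : ℂ)) = ‖x η‖ ^ 2 := Complex.ofReal_re _
      rw [this]
    have h4 : ‖x η‖ ^ 2 ≤ ‖η‖ * ‖(star x * x) η‖ := by
      have := norm_inner_le_norm (𝕜 := ℂ) η ((star x * x) η)
      rwa [h2, Complex.norm_real, Real.norm_of_nonneg (by positivity)] at this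
    rw [h3]
    constructor
    · nlinarith [sq_nonneg (‖η‖ - ‖(star x * x) η‖)]
    · nlinarith [sq_nonneg (‖x η‖), sq_nonneg ‖(star x * x) η‖]
  have hTB : ∀ ξ : H, T (B ξ) = ξ := by
    intro ξ
    have := congrArg (fun Q : H →L[ℂ] H => Q ξ) e1
    simpa using this
  refine ⟨x * B, ?_, ?_, ?_⟩
  · rw [← hcl]
    exact MulMemClass.mul_mem (hle hx) hBm
  · refine ContinuousLinearMap.opNorm_le_bound _ (by norm_num) fun ξ => ?_
    have h1 := (hest (B ξ)).1
    rw [hTB] at h1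
    rw [mul_apply_eq_comp]
    nlinarith [norm_nonneg ξ, norm_nonneg (x (B ξ))]
  · set A := star x * x with hA
    have h1 : B = 1 - B * A := by
      rw [hT, mul_add, mul_one] at e2
      exact eq_sub_of_add_eq e2
    have h2 : ⟪x δ, (x * B) δ⟫_ℂ = ⟪A δ, B δ⟫_ℂ := by
      rw [mul_apply_eq_comp, hA, mul_apply_eq_comp, inner_star' (star x), star_star]
    have h3 : B δ = δ - B (A δ) := by
      conv_lhs => rw [h1]
      rfl
    have h4 : ⟪A δ, δ⟫_ℂ = ((‖x δ‖ ^ 2 : ℝ) : ℂ) := by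
      rw [hA, mul_apply_eq_comp, inner_star', star_star, inner_self_eq_norm_sq_to_K]
      push_cast
      rfl
    have h5 : ‖⟪A δ, B (A δ)⟫_ℂ‖ ≤ ‖A δ‖ ^ 2 := by
      refine (norm_inner_le_norm _ _).trans ?_
      rw [sq]
      refine mul_le_mul_of_nonneg_left ?_ (norm_nonneg _)
      have h6 := (hest (B (A δ))).2
      rw [hTB] at h6
      exact (sq_le_sq₀ (norm_nonneg _) (norm_nonneg _)).1 h6
    rw [h2, h3, inner_sub_right, h4, Complex.sub_re, Complex.ofReal_re]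
    have h7 := (Complex.abs_re_le_norm (⟪A δ, B (A δ)⟫_ℂ)).trans h5
    have h8 := le_abs_self (⟪A δ, B (A δ)⟫_ℂ).re
    linarith

lemma opNorm_u_le (g : G) : ‖u g‖ ≤ 1 :=
  ContinuousLinearMap.opNorm_le_bound _ zero_le_one fun ξ => by rw [S.iso, one_mul]

/-- the truncations are unbounded -/
lemma exists_bad [Infinite G] (R : ℝ) :
    ∃ y ∈ Alg u, ‖y‖ ≤ 1 ∧ ∃ F : Finset G, R ≤ ‖∑ g ∈ F, hat u δ y g • u g‖ := by
  classical
  -- choose X
  set R' : ℝ := max 1 (12 * (R + 1)) with hR'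
  have hR'1 : 1 ≤ R' := le_max_left _ _
  have hR'2 : 12 * (R + 1) ≤ R' := le_max_right _ _
  obtain ⟨X, hX, hX1, hX2⟩ := S.exists_large R'
  obtain ⟨F, hXF, -⟩ := S.exists_repr hX
  set ξ := star X δ with hξ
  have hξn : ‖ξ‖ = 1 := by rw [hξ, S.norm_star hX, hX1]
  set w := (X * star X) δ with hw
  have hwX : w = X ξ := by rw [hw, mul_apply_eq_comp]
  have hw0 : 0 < ‖w‖ := by linarith
  set η : H := ((‖w‖⁻¹ : ℝ) : ℂ) • w with hη
  have hηn : ‖η‖ = 1 := by
    rw [hη, norm_smul, Complex.norm_real, Real.norm_of_nonneg (by positivity),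
      inv_mul_cancel₀ hw0.ne']
  -- coefficients
  set c : G → ℂ := fun g => ⟪η, u g ξ⟫_ℂ with hc
  set m := ∑ g ∈ F, ‖c g‖ ^ 2 with hm
  have hmR : R' ^ 2 ≤ m := by
    have h1 : ⟪η, w⟫_ℂ = ∑ g ∈ F, hat u δ X g * c g := by
      rw [hwX]
      conv_lhs => rw [hXF]
      rw [sum_apply, inner_sum]
      refine Finset.sum_congr rfl fun g _ => ?_
      rw [smul_apply, inner_smul_right]
    have h2 : ⟪η, w⟫_ℂ = (‖w‖ : ℂ) := by
      rw [hη, inner_smul_left, Complex.conj_ofReal, inner_self_eq_norm_sq_to_K]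
      have : (‖w‖ : ℂ) ≠ 0 := by exact_mod_cast hw0.ne'
      push_cast
      have h3 : ((RCLike.ofReal ‖w‖ : ℂ)) = (‖w‖ : ℂ) := rfl
      rw [h3]
      field_simp
    have h3 : ‖w‖ ≤ ∑ g ∈ F, ‖hat u δ X g‖ * ‖c g‖ := by
      have : ‖(‖w‖ : ℂ)‖ = ‖w‖ := by rw [Complex.norm_real, norm_norm]
      rw [← this, ← h2, h1]
      refine (norm_sum_le _ _).trans (le_of_eq ?_)
      exact Finset.sum_congr rfl fun g _ => norm_mul _ _
    have h4 := Finset.sum_mul_sq_le_sq_mul_sq F (fun g => ‖hat u δ X g‖) (fun g => ‖c g‖)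
    have h5 : ∑ g ∈ F, ‖hat u δ X g‖ ^ 2 = 1 := by
      rw [← S.norm_sum_sq F (hat u δ X), ← hXF, hX1, one_pow]
    rw [h5, one_mul] at h4
    calc R' ^ 2 ≤ ‖w‖ ^ 2 := pow_le_pow_left₀ (by linarith) hX2 2
      _ ≤ (∑ g ∈ F, ‖hat u δ X g‖ * ‖c g‖) ^ 2 := pow_le_pow_left₀ (norm_nonneg _) h3 2
      _ ≤ m := h4
  have hm0 : 0 < m := by nlinarith
  -- signs
  obtain ⟨ε, hε, hsign⟩ := S.exists_signs F (fun g => conj (c g))
  set x := ∑ g ∈ F, ((ε g : ℂ) * conj (c g)) • u g with hx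
  have hxm : x ∈ Alg u := S.sum_mem F _
  have hmc : ∑ g ∈ F, ‖conj (c g)‖ ^ 2 = m := by
    rw [hm]
    exact Finset.sum_congr rfl fun g _ => by rw [RCLike.norm_conj]
  rw [hmc] at hsign
  have hxn : ‖x δ‖ ^ 2 = m := by
    rw [hx, S.norm_sum_sq F (fun g => (ε g : ℂ) * conj (c g)), ← hmc]
    refine Finset.sum_congr rfl fun g _ => ?_
    rcases hε g with h | h <;> rw [h] <;> simp
  set r : ℝ := (√(6 * m))⁻¹ with hr
  have hr0 : 0 < r := by positivity
  have hr2 : r ^ 2 = 1 / (6 * m) := by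
    rw [hr, inv_pow, Real.sq_sqrt (by positivity), one_div]
  obtain ⟨z, hz, hz1, hz2⟩ := S.exists_bounded ((Alg u).smul_mem (r : ℂ) hxm)
  have hz3 : 1 / 12 ≤ (⟪((r : ℂ) • x) δ, z δ⟫_ℂ).re := by
    refine le_trans ?_ hz2
    have h1 : ‖((r : ℂ) • x) δ‖ ^ 2 = r ^ 2 * m := by
      rw [smul_apply, norm_smul, mul_pow, hxn, Complex.norm_real, Real.norm_of_nonneg hr0.le]
    have h2 : ‖(star ((r : ℂ) • x) * ((r : ℂ) • x)) δ‖ ^ 2 ≤ (r ^ 2) ^ 2 * (3 * m ^ 2) := by
      rw [star_smul, smul_mul_smul_comm, smul_apply, norm_smul, mul_pow]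
      have h3 : ‖star (r : ℂ) * (r : ℂ)‖ = r ^ 2 := by
        rw [norm_mul, _root_.norm_star, Complex.norm_real, Real.norm_of_nonneg hr0.le, sq]
      rw [h3]
      exact mul_le_mul_of_nonneg_left hsign (by positivity)
    rw [h1]
    have h3 : r ^ 2 * m = 1 / 6 := by
      rw [hr2]
      field_simp
    have h4 : (r ^ 2) ^ 2 * (3 * m ^ 2) = 1 / 12 := by
      calc (r ^ 2) ^ 2 * (3 * m ^ 2) = 3 * (r ^ 2 * m) ^ 2 := by ring
        _ = 1 / 12 := by rw [h3]; norm_num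
    rw [h3]
    linarith
  -- the signed truncation
  set Q : (H →L[ℂ] H) → (H →L[ℂ] H) := fun z => ∑ g ∈ F, ((ε g : ℂ) * hat u δ z g) • u g with hQ
  have hQ1 : ⟪((r : ℂ) • x) δ, z δ⟫_ℂ = (r : ℂ) * ⟪η, Q z ξ⟫_ℂ := by
    rw [smul_apply, inner_smul_left, Complex.conj_ofReal]
    congr 1
    rw [hx, sum_apply, sum_inner]
    simp only [hQ]
    rw [sum_apply, inner_sum]
    refine Finset.sum_congr rfl fun g _ => ?_
    rw [smul_apply, smul_apply, inner_smul_left, inner_smul_right, map_mul, Complex.conj_ofReal,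
      Complex.conj_conj]
    simp only [hc, hat]
    ring
  have hQ2 : R' / 12 ≤ ‖Q z‖ / 2 := by
    have h1 : ‖⟪η, Q z ξ⟫_ℂ‖ ≤ ‖Q z‖ := by
      refine (norm_inner_le_norm _ _).trans ?_
      rw [hηn, one_mul]
      refine ((Q z).le_opNorm ξ).trans ?_
      rw [hξn, mul_one]
    have h2 : 1 / 12 ≤ r * ‖Q z‖ := by
      refine hz3.trans ?_
      rw [hQ1]
      refine (Complex.re_le_norm _).trans ?_
      rw [norm_mul, Complex.norm_real, Real.norm_of_nonneg hr0.le]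
      exact mul_le_mul_of_nonneg_left h1 hr0.le
    have h3 : 2 * R' * r ≤ 1 := by
      have h4 : (2 * R' * r) ^ 2 ≤ 1 ^ 2 := by
        calc (2 * R' * r) ^ 2 = 4 * R' ^ 2 * r ^ 2 := by ring
          _ ≤ 4 * m * r ^ 2 := by
            refine mul_le_mul_of_nonneg_right ?_ (by positivity)
            linarith
          _ = 4 * (m * (1 / (6 * m))) := by rw [hr2]; ring
          _ = 4 / 6 := by
            field_simp
          _ ≤ 1 ^ 2 := by norm_num
      exact (sq_le_sq₀ (by positivity) zero_le_one).1 h4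
    by_contra hcon
    push Not at hcon
    have h5 : r * ‖Q z‖ < r * (2 * (R' / 12)) := mul_lt_mul_of_pos_left (by linarith) hr0
    have h6 : r * (2 * (R' / 12)) = (2 * R' * r) / 12 := by ring
    linarith
  -- positive and negative parts
  set Fp := F.filter (fun g => ε g = 1) with hFp
  set Fm := F.filter (fun g => ¬ ε g = 1) with hFm
  have hsplit : Q z = (∑ g ∈ Fp, hat u δ z g • u g) - ∑ g ∈ Fm, hat u δ z g • u g := by
    simp only [hQ]
    rw [← Finset.sum_filter_add_sum_filter_not F (fun g => ε g = 1), sub_eq_add_neg,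
      ← Finset.sum_neg_distrib]
    congr 1
    · refine Finset.sum_congr rfl fun g hg => ?_
      rw [(Finset.mem_filter.1 hg).2]
      simp
    · refine Finset.sum_congr rfl fun g hg => ?_
      rw [(hε g).resolve_left (Finset.mem_filter.1 hg).2]
      simp
  obtain ⟨F', hF'⟩ : ∃ F' : Finset G, R + 1 ≤ ‖∑ g ∈ F', hat u δ z g • u g‖ := by
    by_contra hcon
    push Not at hcon
    have h1 := hcon Fp
    have h2 := hcon Fm
    have h3 : ‖Q z‖ ≤ ‖∑ g ∈ Fp, hat u δ z g • u g‖ + ‖∑ g ∈ Fm, hat u δ z g • u g‖ := by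
      rw [hsplit]
      exact norm_sub_le _ _
    linarith
  -- approximate
  have hρ : 0 < min (1 / 2 : ℝ) (1 / ((F'.card : ℝ) + 1)) :=
    lt_min (by norm_num) (div_pos one_pos (Nat.cast_add_one_pos _))
  obtain ⟨y, hy, hyz⟩ := Metric.mem_closure_iff.1 hz _ hρ
  rw [dist_eq_norm] at hyz
  have hy1 := lt_of_lt_of_le hyz (min_le_left _ _)
  have hy2 := lt_of_lt_of_le hyz (min_le_right _ _)
  refine ⟨y, hy, ?_, F', ?_⟩
  · have h1 : ‖y‖ ≤ ‖z‖ + ‖z - y‖ := by
      have := norm_sub_le z (z - y)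
      rwa [sub_sub_cancel] at this
    linarith
  · have h1 : ∑ g ∈ F', hat u δ z g • u g =
        (∑ g ∈ F', hat u δ y g • u g) + ∑ g ∈ F', hat u δ (z - y) g • u g := by
      rw [← Finset.sum_add_distrib]
      refine Finset.sum_congr rfl fun g _ => ?_
      rw [← add_smul, ← hat_add, add_sub_cancel]
    have h2 : ‖∑ g ∈ F', hat u δ (z - y) g • u g‖ ≤ F'.card * ‖z - y‖ := by
      refine (norm_sum_le _ _).trans ?_
      rw [← nsmul_eq_mul]
      refine Finset.sum_le_card_nsmul _ _ _ fun g _ => ?_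
      rw [norm_smul]
      calc _ ≤ ‖z - y‖ * 1 := mul_le_mul (S.norm_hat_le _ _) (S.opNorm_u_le g) (norm_nonneg _)
            (norm_nonneg _)
        _ = _ := mul_one _
    have h3 : F'.card * ‖z - y‖ ≤ 1 := by
      have h4 : (0:ℝ) < F'.card + 1 := Nat.cast_add_one_pos _
      rw [lt_div_iff₀ h4] at hy2
      nlinarith [norm_nonneg (z - y)]
    have h5 := norm_add_le (∑ g ∈ F', hat u δ y g • u g) (∑ g ∈ F', hat u δ (z - y) g • u g)
    rw [← h1] at h5
    linarith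

end Sys

end Pool.Agent.R290.CF
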