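import Pool.Agent.R290.CF3

/-!
Step D: the gliding hump.
-/

namespace Pool.Agent.R290.CF

open scoped InnerProductSpace ComplexConjugate
set_option linter.unusedSectionVars false
open Complex

variable {G : Type*} [Group G] {H : Type*} [NormedAddCommGroup H] [InnerProductSpace ℂ H]
  [CompleteSpace H]

namespace Sys

variable {σ : G → G → ℂ} {u : G → H →L[ℂ] H} {δ : H} (S : Sys σ u δ)

include S

lemma hat_u_mul (h : G) (y : H →L[ℂ] H) (g : G) :
    hat u δ (u h * y) g = σ h (h⁻¹ * g) * hat u δ y (h⁻¹ * g) := by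
  have h1 : u g = conj (σ h (h⁻¹ * g)) • (u h * u (h⁻¹ * g)) := by
    rw [S.mul, smul_smul, S.conj_mul_σ, one_smul, mul_inv_cancel_left]
  unfold hat
  rw [h1, smul_apply, inner_smul_left, Complex.conj_conj, inner_star]
  congr 1
  rw [star_mul, mul_assoc, ← mul_assoc (star (u h)) (u h) y, S.star_mul_self, one_mul,
    ← inner_star]

/-- the Fourier coefficient as a continuous functional -/
noncomputable def hatL (u : G → H →L[ℂ] H) (δ : H) (g : G) : (H →L[ℂ] H) →L[ℂ] ℂ :=
  (innerSL ℂ (u g δ)).comp (ContinuousLinearMap.apply ℂ H δ)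

omit S [CompleteSpace H] in
lemma hatL_apply (g : G) (x : H →L[ℂ] H) : hatL u δ g x = hat u δ x g := rfl

lemma norm_mul_left (h : G) (y : H →L[ℂ] H) : ‖y‖ ≤ ‖u h * y‖ := by
  refine ContinuousLinearMap.opNorm_le_bound _ (norm_nonneg _) fun ξ => ?_
  rw [← S.iso h (y ξ)]
  exact (u h * y).le_opNorm ξ

lemma norm_mul_left' (h : G) (y : H →L[ℂ] H) : ‖u h * y‖ ≤ ‖y‖ := by
  refine ContinuousLinearMap.opNorm_le_bound _ (norm_nonneg _) fun ξ => ?_
  rw [mul_apply_eq_comp, S.iso]
  exact y.le_opNorm ξ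

/-- one hump -/
lemma exists_hump [Infinite G] (k : ℕ) : ∃ (y : H →L[ℂ] H) (F T : Finset G), y ∈ Alg u ∧
    ‖y‖ ≤ (1 / 2) ^ k ∧ 1 ≤ ‖∑ g ∈ F, hat u δ y g • u g‖ ∧ F ⊆ T ∧ ∀ g ∉ T, hat u δ y g = 0 := by
  classical
  obtain ⟨y, hy, hy1, F, hF⟩ := S.exists_bad (2 ^ k)
  obtain ⟨T, -, hT⟩ := S.exists_repr hy
  refine ⟨((1 / 2 : ℂ) ^ k) • y, F, F ∪ T, (Alg u).smul_mem _ hy, ?_, ?_, Finset.subset_union_left,
    ?_⟩
  · rw [norm_smul, norm_pow]
    have : ‖(1 / 2 : ℂ)‖ = 1 / 2 := by norm_num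
    rw [this]
    calc (1 / 2 : ℝ) ^ k * ‖y‖ ≤ (1 / 2) ^ k * 1 := by
          exact mul_le_mul_of_nonneg_left hy1 (by positivity)
      _ = _ := mul_one _
  · have h1 : ∑ g ∈ F, hat u δ (((1 / 2 : ℂ) ^ k) • y) g • u g =
        ((1 / 2 : ℂ) ^ k) • ∑ g ∈ F, hat u δ y g • u g := by
      rw [Finset.smul_sum]
      exact Finset.sum_congr rfl fun g _ => by rw [hat_smul, smul_smul]
    rw [h1, norm_smul, norm_pow]
    have : ‖(1 / 2 : ℂ)‖ = 1 / 2 := by norm_num
    rw [this]
    calc (1:ℝ) = (1 / 2) ^ k * 2 ^ k := by rw [← mul_pow]; norm_num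
      _ ≤ _ := mul_le_mul_of_nonneg_left hF (by positivity)
  · intro g hg
    rw [hat_smul, hT g fun h => hg (Finset.mem_union_right _ h), mul_zero]

/-- the sequence of humps and translations -/
lemma exists_humps [Infinite G] (d : G → ℝ) (hd0 : ∀ g, 0 ≤ d g)
    (hd1 : ∀ h g, d h ≤ 2 * d (h * g) + 2 * d g) (hd2 : ∀ R, ∃ g, R ≤ d g) :
    ∃ (y : ℕ → H →L[ℂ] H) (F T : ℕ → Finset G) (h : ℕ → G),
      (∀ n, y n ∈ Alg u) ∧ (∀ n, ‖y n‖ ≤ (1 / 2) ^ n) ∧
      (∀ n, 1 ≤ ‖∑ g ∈ F n, hat u δ (y n) g • u g‖) ∧ (∀ n, F n ⊆ T n) ∧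
      (∀ n, ∀ g ∉ T n, hat u δ (y n) g = 0) ∧
      (∀ m n, m < n → ∀ g' ∈ T m, ∀ g ∈ T n, h m * g' ≠ h n * g) ∧
      (∀ n : ℕ, ∀ t : ℝ, 1 / ((n : ℝ) + 1) ≤ t →
        ∑ g ∈ T n, Real.exp (-t * d (h n * g)) * ‖hat u δ (y n) g‖ ≤ (1 / 2) ^ n) := by
  choose y F T hy1 hy2 hy3 hy4 hy5 using fun k => S.exists_hump k
  set C : ℕ → ℝ := fun k => ∑ g ∈ T k, ‖hat u δ (y k) g‖ with hC
  have hC0 : ∀ k, 0 ≤ C k := fun k => Finset.sum_nonneg fun g _ => norm_nonneg _
  set M : ℕ → ℝ := fun k => (k + 1) * (2 ^ k * C k) with hM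
  obtain ⟨f, hf1, hf2⟩ := exists_seq_of_forall_finset_exists
    (fun p : ℕ × G => ∀ g ∈ T p.1, M p.1 ≤ d (p.2 * g))
    (fun p q : ℕ × G => p.1 < q.1 ∧ ∀ g' ∈ T p.1, ∀ g ∈ T q.1, p.2 * g' ≠ q.2 * g) (by
      intro s _
      obtain ⟨k, hk⟩ : ∃ k : ℕ, ∀ p ∈ s, p.1 < k :=
        ⟨s.sup (fun p => p.1) + 1, fun p hp => Nat.lt_succ_of_le (Finset.le_sup (f := fun p => p.1) hp)⟩
      set L : ℝ := max (M k) (1 + ∑ p ∈ s, ∑ g ∈ T p.1, d (p.2 * g)) with hL
      obtain ⟨h, hh⟩ := hd2 (2 * (L + ∑ g ∈ T k, d g))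
      have h1 : ∀ g ∈ T k, L ≤ d (h * g) := by
        intro g hg
        have h2 := hd1 h g
        have h3 : d g ≤ ∑ g ∈ T k, d g := Finset.single_le_sum (fun g _ => hd0 g) hg
        linarith
      refine ⟨(k, h), ?_, ?_⟩
      · intro g hg
        exact (le_max_left _ _).trans (h1 g hg)
      · intro p hp
        refine ⟨hk p hp, ?_⟩
        intro g' hg' g hg heq
        have h2 := h1 g hg
        simp only at heq
        rw [← heq] at h2
        have h3 : d (p.2 * g') ≤ ∑ g ∈ T p.1, d (p.2 * g) :=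
          Finset.single_le_sum (f := fun g => d (p.2 * g)) (fun g _ => hd0 _) hg'
        have h4 : ∑ g ∈ T p.1, d (p.2 * g) ≤ ∑ p ∈ s, ∑ g ∈ T p.1, d (p.2 * g) :=
          Finset.single_le_sum (f := fun p : ℕ × G => ∑ g ∈ T p.1, d (p.2 * g))
            (fun p _ => Finset.sum_nonneg fun g _ => hd0 _) hp
        have h5 := le_max_right (M k) (1 + ∑ p ∈ s, ∑ g ∈ T p.1, d (p.2 * g))
        linarith)
  have hmono : StrictMono fun n => (f n).1 := fun m n hmn => (hf2 m n hmn).1
  have hid : ∀ n, n ≤ (f n).1 := hmono.id_le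
  have hpow : ∀ n, (1 / 2 : ℝ) ^ (f n).1 ≤ (1 / 2) ^ n := fun n =>
    pow_le_pow_of_le_one (by norm_num) (by norm_num) (hid n)
  refine ⟨fun n => y (f n).1, fun n => F (f n).1, fun n => T (f n).1, fun n => (f n).2,
    fun n => hy1 _, fun n => (hy2 _).trans (hpow n), fun n => hy3 _, fun n => hy4 _,
    fun n => hy5 _, fun m n hmn => (hf2 m n hmn).2, ?_⟩
  intro n t ht
  refine le_trans ?_ (hpow n)
  set k := (f n).1 with hk
  have ht2 : 1 / ((k : ℝ) + 1) ≤ t := by
    refine le_trans ?_ ht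
    apply one_div_le_one_div_of_le (Nat.cast_add_one_pos n)
    have := hid n
    have h2 : (n : ℝ) ≤ k := by exact_mod_cast this
    linarith
  have hk1 : (0:ℝ) < (k : ℝ) + 1 := Nat.cast_add_one_pos k
  have ht0 : 0 < t := lt_of_lt_of_le (div_pos one_pos hk1) ht2
  have h1 : ∀ g ∈ T k, Real.exp (-t * d ((f n).2 * g)) ≤ Real.exp (-(2 ^ k * C k)) := by
    intro g hg
    apply Real.exp_le_exp.2
    have h2 := hf1 n g hg
    have h3 : 2 ^ k * C k ≤ t * d ((f n).2 * g) := by
      calc 2 ^ k * C k = 1 / ((k:ℝ) + 1) * M k := by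
            rw [hM]
            field_simp
        _ ≤ t * d ((f n).2 * g) := by
            refine mul_le_mul ht2 h2 ?_ ht0.le
            rw [hM]
            have := hC0 k
            positivity
    linarith
  calc ∑ g ∈ T k, Real.exp (-t * d ((f n).2 * g)) * ‖hat u δ (y k) g‖
      ≤ ∑ g ∈ T k, Real.exp (-(2 ^ k * C k)) * ‖hat u δ (y k) g‖ :=
        Finset.sum_le_sum fun g hg => mul_le_mul_of_nonneg_right (h1 g hg) (norm_nonneg _)
    _ = Real.exp (-(2 ^ k * C k)) * C k := by rw [← Finset.mul_sum]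
    _ ≤ (1 / 2) ^ k := by
        rw [Real.exp_neg, ← div_eq_inv_mul, div_le_iff₀ (Real.exp_pos _)]
        have h2 := Real.add_one_le_exp (2 ^ k * C k)
        have h3 : C k = (1 / 2) ^ k * (2 ^ k * C k) := by
          rw [← mul_assoc, ← mul_pow]
          norm_num
        calc C k = (1 / 2) ^ k * (2 ^ k * C k) := h3
          _ ≤ (1 / 2) ^ k * Real.exp (2 ^ k * C k) := by
            refine mul_le_mul_of_nonneg_left ?_ (by positivity)
            linarith

/-- the main abstract theorem -/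
theorem main [Infinite G] (d : G → ℝ) (hd0 : ∀ g, 0 ≤ d g)
    (hd1 : ∀ h g, d h ≤ 2 * d (h * g) + 2 * d g) (hd2 : ∀ R, ∃ g, R ≤ d g) :
    ∃ x ∈ closure (Alg u : Set (H →L[ℂ] H)), (¬ Summable fun g => hat u δ x g • u g) ∧
      ∀ t : ℝ, 0 < t → Summable fun g => Real.exp (-t * d g) * ‖hat u δ x g‖ := by
  classical
  obtain ⟨y, F, T, h, hy1, hy2, hy3, hFT, hy5, hdis, hexp⟩ := S.exists_humps d hd0 hd1 hd2
  set Y : ℕ → H →L[ℂ] H := fun n => u (h n) * y n with hY
  have hYn : ∀ n, ‖Y n‖ ≤ (1 / 2) ^ n := fun n => (S.norm_mul_left' _ _).trans (hy2 n)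
  have hYs : Summable Y := Summable.of_norm_bounded
    (summable_geometric_of_lt_one (by norm_num) (by norm_num : (1/2:ℝ) < 1)) hYn
  set x := ∑' n, Y n with hx
  have hxh : HasSum Y x := hYs.hasSum
  have hhat : ∀ g, HasSum (fun n => hat u δ (Y n) g) (hat u δ x g) := by
    intro g
    exact hxh.mapL (hatL u δ g)
  have hYhat : ∀ n g, hat u δ (Y n) g = σ (h n) ((h n)⁻¹ * g) * hat u δ (y n) ((h n)⁻¹ * g) :=
    fun n g => S.hat_u_mul _ _ _
  have hdis' : ∀ m n, m ≠ n → ∀ g' ∈ T m, ∀ g ∈ T n, h m * g' ≠ h n * g := by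
    intro m n hmn g' hg' g hg
    rcases lt_or_gt_of_ne hmn with h1 | h1
    · exact hdis m n h1 g' hg' g hg
    · exact (hdis n m h1 g hg g' hg').symm
  refine ⟨x, ?_, ?_, ?_⟩
  · apply mem_closure_of_tendsto hxh
    filter_upwards with s
    exact Submodule.sum_mem _ fun n _ => S.mul_mem (u_mem _) (hy1 n)
  · intro hsum
    obtain ⟨s, hs⟩ := summable_iff_vanishing_norm.1 hsum 1 one_pos
    obtain ⟨n, hn⟩ : ∃ n, Disjoint ((F n).image (fun g => h n * g)) s := by
      by_contra hcon
      push Not at hcon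
      have h1 : ∀ n, ∃ g ∈ F n, h n * g ∈ s := by
        intro n
        obtain ⟨a, ha1, ha2⟩ := Finset.not_disjoint_iff.1 (hcon n)
        obtain ⟨g, hg, rfl⟩ := Finset.mem_image.1 ha1
        exact ⟨g, hg, ha2⟩
      choose g hg1 hg2 using h1
      refine not_injective_infinite_finite (fun n : ℕ => (⟨h n * g n, hg2 n⟩ : s)) ?_
      intro m n hmn
      by_contra hne
      exact hdis' m n hne _ (hFT m (hg1 m)) _ (hFT n (hg1 n)) (congrArg Subtype.val hmn)
    have h2 := hs _ hn
    rw [Finset.sum_image (by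
      intro a _ b _ hab
      exact mul_left_cancel hab)] at h2
    have h3 : ∑ g ∈ F n, hat u δ x (h n * g) • u (h n * g) =
        u (h n) * ∑ g ∈ F n, hat u δ (y n) g • u g := by
      rw [Finset.mul_sum]
      refine Finset.sum_congr rfl fun g hg => ?_
      have h4 : hat u δ x (h n * g) = σ (h n) g * hat u δ (y n) g := by
        have h5 : HasSum (fun m => hat u δ (Y m) (h n * g)) (hat u δ (Y n) (h n * g)) := by
          apply hasSum_single
          intro m hm
          rw [hYhat]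
          rw [hy5 m _ ?_, mul_zero]
          intro h6
          refine hdis' m n hm _ h6 g (hFT n hg) ?_
          rw [mul_inv_cancel_left]
        rw [(hhat (h n * g)).unique h5, hYhat, inv_mul_cancel_left]
      rw [h4, mul_smul_comm, S.mul, smul_smul, mul_comm (σ (h n) g)]
    rw [h3] at h2
    have h6 := (hy3 n).trans (S.norm_mul_left (h n) _)
    linarith
  · intro t ht
    -- the double family
    set f : ℕ × G → ℝ := fun p => Real.exp (-t * d p.2) * ‖hat u δ (Y p.1) p.2‖ with hf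
    have hf0 : 0 ≤ f := fun p => by
      simp only [hf, Pi.zero_apply]
      positivity
    have hrow : ∀ n, HasSum (fun g => f (n, g))
        (∑ g ∈ T n, Real.exp (-t * d (h n * g)) * ‖hat u δ (y n) g‖) := by
      intro n
      have h1 : HasSum (fun g => f (n, g)) (∑ g ∈ (T n).image (fun g => h n * g), f (n, g)) := by
        apply hasSum_sum_of_ne_finset_zero
        intro g hg
        simp only [hf]
        rw [hYhat, hy5 n, mul_zero, norm_zero, mul_zero]
        intro h2
        apply hg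
        exact Finset.mem_image.2 ⟨_, h2, by rw [mul_inv_cancel_left]⟩
      rw [Finset.sum_image (by
        intro a _ b _ hab
        exact mul_left_cancel hab)] at h1
      convert h1 using 1
      refine Finset.sum_congr rfl fun g _ => ?_
      simp only [hf]
      rw [hYhat, inv_mul_cancel_left, norm_mul, S.norm_σ, one_mul]
    have hsumf : Summable f := by
      rw [summable_prod_of_nonneg hf0]
      refine ⟨fun n => (hrow n).summable, ?_⟩
      have h1 : ∀ n, ∑' g, f (n, g) =
          ∑ g ∈ T n, Real.exp (-t * d (h n * g)) * ‖hat u δ (y n) g‖ := fun n => (hrow n).tsum_eq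
      simp only [h1]
      obtain ⟨N, hN⟩ := exists_nat_one_div_lt ht
      rw [← summable_nat_add_iff N]
      refine Summable.of_nonneg_of_le (fun n => Finset.sum_nonneg fun g _ => by positivity)
        (fun n => hexp (n + N) t ?_)
        ((summable_nat_add_iff N).2 (summable_geometric_of_lt_one (by norm_num)
          (by norm_num : (1/2:ℝ) < 1)))
      refine le_trans ?_ hN.le
      apply one_div_le_one_div_of_le (Nat.cast_add_one_pos N)
      push_cast
      have : (0:ℝ) ≤ n := Nat.cast_nonneg n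
      linarith
    have hcol : Summable fun g => ∑' n, f (n, g) := by
      have h1 : Summable (fun p : G × ℕ => f p.swap) := hsumf.prod_symm
      exact h1.prod
    have hcol2 : ∀ g, Summable fun n => f (n, g) := by
      intro g
      have h1 : Summable (fun p : G × ℕ => f p.swap) := hsumf.prod_symm
      exact h1.prod_factor g
    refine Summable.of_nonneg_of_le (fun g => by positivity) (fun g => ?_) hcol
    simp only [hf]
    rw [tsum_mul_left]
    refine mul_le_mul_of_nonneg_left ?_ (Real.exp_pos _).le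
    have h1 : Summable fun n => ‖hat u δ (Y n) g‖ := by
      have h2 := (hcol2 g).mul_left (Real.exp (t * d g))
      refine h2.congr fun n => ?_
      simp only [hf]
      rw [← mul_assoc, ← Real.exp_add]
      have : t * d g + -t * d g = 0 := by ring
      rw [this, Real.exp_zero, one_mul]
    rw [← (hhat g).tsum_eq]
    exact norm_tsum_le_tsum_norm h1

/-- heat operators on the closure -/
lemma heat_closure (φ : G → ℂ) (M : (Alg u).topologicalClosure →L[ℂ] (H →L[ℂ] H))
    (hM : ∀ g, ∀ hg : u g ∈ (Alg u).topologicalClosure, M ⟨u g, hg⟩ = φ g • u g)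
    (x : (Alg u).topologicalClosure) :
    M x ∈ (Alg u).topologicalClosure ∧ ∀ g, hat u δ (M x) g = φ g * hat u δ (x : H →L[ℂ] H) g := by
  classical
  have hA : ∀ (a : H →L[ℂ] H) (_ : a ∈ Alg u) (ha' : a ∈ (Alg u).topologicalClosure),
      M ⟨a, ha'⟩ ∈ (Alg u).topologicalClosure ∧
        ∀ g, hat u δ (M ⟨a, ha'⟩) g = φ g * hat u δ a g := by
    intro a ha
    unfold Alg at ha
    induction ha using Submodule.span_induction with
    | mem a h =>
      obtain ⟨g, rfl⟩ := h
      intro ha'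
      rw [hM g ha']
      refine ⟨Submodule.smul_mem _ _ ha', fun k => ?_⟩
      rw [hat_smul]
      by_cases hk : k = g
      · rw [hk]
      · have h1 : hat u δ (u g) k = 0 := S.orthonormal.2 hk
        rw [h1, mul_zero, mul_zero]
    | zero =>
      intro ha'
      have h1 : (⟨0, ha'⟩ : (Alg u).topologicalClosure) = 0 := rfl
      rw [h1, map_zero]
      refine ⟨Submodule.zero_mem _, fun k => ?_⟩
      unfold hat
      simp
    | add a b ha hb iha ihb =>
      intro ha'
      have ha1 : a ∈ (Alg u).topologicalClosure := (Alg u).le_topologicalClosure ha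
      have hb1 : b ∈ (Alg u).topologicalClosure := (Alg u).le_topologicalClosure hb
      have h1 : (⟨a + b, ha'⟩ : (Alg u).topologicalClosure) = ⟨a, ha1⟩ + ⟨b, hb1⟩ := rfl
      rw [h1, map_add]
      refine ⟨Submodule.add_mem _ (iha ha1).1 (ihb hb1).1, fun k => ?_⟩
      rw [hat_add, hat_add, (iha ha1).2, (ihb hb1).2, mul_add]
    | smul c a ha iha =>
      intro ha'
      have ha1 : a ∈ (Alg u).topologicalClosure := (Alg u).le_topologicalClosure ha
      have h1 : (⟨c • a, ha'⟩ : (Alg u).topologicalClosure) = c • ⟨a, ha1⟩ := rfl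
      rw [h1, map_smul]
      refine ⟨Submodule.smul_mem _ _ (iha ha1).1, fun k => ?_⟩
      rw [hat_smul, hat_smul, (iha ha1).2]
      ring
  obtain ⟨a, ha1, ha2⟩ := mem_closure_iff_seq_limit.1
    (show (x : H →L[ℂ] H) ∈ closure (Alg u : Set (H →L[ℂ] H)) from x.2)
  have ha3 : ∀ n, a n ∈ (Alg u).topologicalClosure := fun n => (Alg u).le_topologicalClosure (ha1 n)
  have ht : Filter.Tendsto (fun n => (⟨a n, ha3 n⟩ : (Alg u).topologicalClosure))
      Filter.atTop (nhds x) := by
    rw [tendsto_subtype_rng]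
    exact ha2
  have hMt : Filter.Tendsto (fun n => M ⟨a n, ha3 n⟩) Filter.atTop (nhds (M x)) :=
    (M.continuous.tendsto x).comp ht
  constructor
  · exact (Alg u).isClosed_topologicalClosure.mem_of_tendsto hMt
      (Filter.Eventually.of_forall fun n => (hA _ (ha1 n) (ha3 n)).1)
  · intro g
    have h1 : Filter.Tendsto (fun n => hatL u δ g (M ⟨a n, ha3 n⟩)) Filter.atTop
        (nhds (hatL u δ g (M x))) := ((hatL u δ g).continuous.tendsto _).comp hMt
    have h2 : Filter.Tendsto (fun n => φ g * hatL u δ g (a n)) Filter.atTop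
        (nhds (φ g * hatL u δ g x)) :=
      (((hatL u δ g).continuous.tendsto _).comp ha2).const_mul _
    have h3 : (fun n => hatL u δ g (M ⟨a n, ha3 n⟩)) = fun n => φ g * hatL u δ g (a n) := by
      funext n
      exact (hA _ (ha1 n) (ha3 n)).2 g
    rw [h3] at h1
    exact tendsto_nhds_unique h1 h2

/-- absolutely summable coefficients define elements of the closure -/
lemma exists_of_summable {c : G → ℂ} (hc : Summable fun g => ‖c g‖) :
    ∃ y ∈ (Alg u).topologicalClosure, (∀ g, hat u δ y g = c g) ∧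
      Summable (fun g => hat u δ y g • u g) := by
  classical
  have h1 : Summable (fun g => c g • u g) := by
    refine Summable.of_norm_bounded hc fun g => ?_
    rw [norm_smul]
    calc ‖c g‖ * ‖u g‖ ≤ ‖c g‖ * 1 := mul_le_mul_of_nonneg_left (S.opNorm_u_le g) (norm_nonneg _)
      _ = _ := mul_one _
  have h2 : ∀ g, hat u δ (∑' g, c g • u g) g = c g := by
    intro g
    have h3 : HasSum (fun k => hat u δ (c k • u k) g) (hat u δ (∑' g, c g • u g) g) :=
      h1.hasSum.mapL (hatL u δ g)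
    have h4 : HasSum (fun k => hat u δ (c k • u k) g) (hat u δ (c g • u g) g) := by
      apply hasSum_single
      intro k hk
      rw [hat_smul]
      have h5 : hat u δ (u k) g = 0 := S.orthonormal.2 (Ne.symm hk)
      rw [h5, mul_zero]
    rw [h3.unique h4, hat_smul]
    have h6 : hat u δ (u g) g = 1 := by
      have := S.orthonormal.1 g
      unfold hat
      simp only at this
      rw [inner_self_eq_norm_sq_to_K, this]
      simp
    rw [h6, mul_one]
  refine ⟨∑' g, c g • u g, ?_, h2, ?_⟩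
  · apply mem_closure_of_tendsto h1.hasSum
    filter_upwards with s
    exact S.sum_mem s c
  · simp only [h2]
    exact h1

end Sys

end Pool.Agent.R290.CF
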