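import Mathlib
import Pool.Agent.R290.Markov1

/-!
# The decoupled Markov group conjecture, part II: matrices as operators on `ℓ¹`
-/

set_option autoImplicit false
open Set Filter Topology BoundedContinuousFunction
open H520R3.MG

namespace Pool.Agent.R290.Markov

variable {d : ℕ}

/-- coordinates -/
noncomputable def pr (d : ℕ) : E →L[ℝ] (Fin d → ℝ) :=
  ContinuousLinearMap.pi fun i => pairL (ind {(i : ℕ)})

theorem pairL_ind (i : ℕ) (x : E) : pairL (ind {i}) x = x i := by
  rw [pairL_apply, tsum_eq_single i]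
  · rw [ind_of_mem (mem_singleton i), mul_one]
  · intro k hk
    rw [ind_of_notMem (by simpa using hk), mul_zero]

theorem pr_apply (x : E) (i : Fin d) : pr d x i = x i := pairL_ind _ _

/-- embedding -/
noncomputable def em (d : ℕ) : (Fin d → ℝ) →L[ℝ] E :=
  ∑ i : Fin d, (ContinuousLinearMap.proj i : (Fin d → ℝ) →L[ℝ] ℝ).smulRight (e (i : ℕ))

theorem em_apply (v : Fin d → ℝ) : em d v = ∑ i : Fin d, v i • e (i : ℕ) := by
  simp [em]

theorem em_coord (v : Fin d → ℝ) (n : ℕ) : (em d v) n = if h : n < d then v ⟨n, h⟩ else 0 := by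
  rw [← pairL_ind, em_apply, map_sum]
  simp_rw [map_smul, pairL_e, smul_eq_mul]
  split_ifs with h
  · rw [Finset.sum_eq_single (⟨n, h⟩ : Fin d)]
    · rw [ind_of_mem (mem_singleton _), mul_one]
    · intro j _ hj
      rw [ind_of_notMem, mul_zero]
      intro h'
      apply hj
      ext
      exact h'
    · simp
  · apply Finset.sum_eq_zero
    intro j _
    rw [ind_of_notMem, mul_zero]
    intro h'
    have h'' : (j : ℕ) = n := h'
    exact h (h'' ▸ j.2)

theorem pr_em (v : Fin d → ℝ) : pr d (em d v) = v := by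
  ext i
  rw [pr_apply, em_coord, dif_pos i.2]

/-- the block operator -/
noncomputable def lift (R : Matrix (Fin d) (Fin d) ℝ) : E →L[ℝ] E :=
  ContinuousLinearMap.id ℝ E - (em d).comp (pr d) +
    (em d).comp ((LinearMap.toContinuousLinearMap (Matrix.mulVecLin R)).comp (pr d))

theorem lift_apply (R : Matrix (Fin d) (Fin d) ℝ) (x : E) :
    lift R x = x - em d (pr d x) + em d (R.mulVec (pr d x)) := rfl

theorem pr_lift (R : Matrix (Fin d) (Fin d) ℝ) (x : E) : pr d (lift R x) = R.mulVec (pr d x) := by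
  rw [lift_apply, map_add, map_sub, pr_em, pr_em, sub_self, zero_add]

theorem lift_one : lift (1 : Matrix (Fin d) (Fin d) ℝ) = ContinuousLinearMap.id ℝ E := by
  ext x : 1
  rw [lift_apply, Matrix.one_mulVec]
  simp

theorem lift_mul (R S : Matrix (Fin d) (Fin d) ℝ) : lift (R * S) = (lift R).comp (lift S) := by
  ext x : 1
  rw [ContinuousLinearMap.comp_apply, lift_apply R, pr_lift, lift_apply, lift_apply S,
    Matrix.mulVec_mulVec]
  abel

theorem lift_coord (R : Matrix (Fin d) (Fin d) ℝ) (x : E) (n : ℕ) :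
    (lift R x) n = if h : n < d then R.mulVec (pr d x) ⟨n, h⟩ else x n := by
  have h1 : (lift R x) n = x n - (em d (pr d x)) n + (em d (R.mulVec (pr d x))) n := by
    rw [lift_apply]; rfl
  rw [h1, em_coord, em_coord]
  split_ifs with h
  · rw [pr_apply]; ring
  · ring

theorem sum_em (v : Fin d → ℝ) : pairL 1 (em d v) = ∑ i, v i := by
  rw [em_apply, map_sum]
  simp_rw [map_smul, pairL_e]
  simp

theorem norm_of_nonneg (x : E) (hx : ∀ n, 0 ≤ x n) : ‖x‖ = pairL 1 x := by
  rw [norm_eq, pairL_apply]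
  refine tsum_congr fun n => ?_
  rw [abs_of_nonneg (hx n)]
  simp

theorem lift_mk (R : Matrix (Fin d) (Fin d) ℝ) (h0 : ∀ i j, 0 ≤ R i j)
    (h1 : ∀ j, ∑ i, R i j = 1) : Mk (lift R) := by
  have hpos : ∀ x : E, (∀ n, 0 ≤ x n) → ∀ n, 0 ≤ (lift R x) n := by
    intro x hx n
    rw [lift_coord]
    split_ifs with h
    · have h2 : R.mulVec (pr d x) ⟨n, h⟩ = ∑ j, R ⟨n, h⟩ j * pr d x j := rfl
      rw [h2]
      refine Finset.sum_nonneg fun j _ => ?_
      exact mul_nonneg (h0 _ _) (by rw [pr_apply]; exact hx _)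
    · exact hx n
  refine ⟨hpos, fun x hx => ?_⟩
  rw [norm_of_nonneg _ (hpos x hx), norm_of_nonneg x hx, lift_apply, map_add, map_sub,
    sum_em, sum_em]
  have : ∑ i, R.mulVec (pr d x) i = ∑ i, pr d x i := by
    simp only [Matrix.mulVec, dotProduct]
    rw [Finset.sum_comm]
    refine Finset.sum_congr rfl fun j _ => ?_
    rw [← Finset.sum_mul, h1, one_mul]
  rw [this]
  ring

theorem pr_e (j : Fin d) : pr d (e (j : ℕ)) = Pi.single j 1 := by
  ext i
  rw [pr_apply]
  by_cases h : i = j
  · subst h; simp [e_self]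
  · rw [Pi.single_eq_of_ne h, e_ne]
    intro h'
    exact h (Fin.ext h')

theorem norm_em (v : Fin d → ℝ) : ‖em d v‖ = ∑ i, |v i| := by
  rw [norm_eq]
  have h : ∀ n, |(em d v) n| = if h : n < d then |v ⟨n, h⟩| else 0 := by
    intro n
    rw [em_coord]
    split_ifs <;> simp
  simp_rw [h]
  rw [tsum_eq_sum (s := Finset.range d)]
  · rw [Finset.sum_range]
    refine Finset.sum_congr rfl fun i _ => ?_
    rw [dif_pos i.2]
  · intro n hn
    rw [dif_neg]
    simpa using hn

theorem norm_lift_e (R : Matrix (Fin d) (Fin d) ℝ) (j : Fin d) :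
    ‖lift R (e (j : ℕ))‖ = ∑ i, |R i j| := by
  have h1 : lift R (e (j : ℕ)) = em d (R.mulVec (Pi.single j 1)) := by
    rw [lift_apply, pr_e]
    have : em d (Pi.single j 1) = e (j : ℕ) := by
      rw [em_apply, Finset.sum_eq_single j]
      · simp
      · intro i _ hi
        rw [Pi.single_eq_of_ne hi, zero_smul]
      · simp
    rw [this, sub_self, zero_add]
  rw [h1, norm_em]
  refine Finset.sum_congr rfl fun i _ => ?_
  rw [Matrix.mulVec_single_one]
  rfl

theorem lift_e_ge (R : Matrix (Fin d) (Fin d) ℝ) (n : ℕ) (hn : d ≤ n) : lift R (e n) = e n := by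
  have h1 : pr d (e n) = 0 := by
    ext i
    rw [pr_apply, e_ne]
    · rfl
    · have := i.2; omega
  rw [lift_apply, h1]
  simp

theorem lift_bound (R : Matrix (Fin d) (Fin d) ℝ) {M : ℝ} (hM : 1 ≤ M)
    (h : ∀ j, ∑ i, |R i j| ≤ M) (x : E) : ‖lift R x‖ ≤ M * ‖x‖ := by
  refine opNorm_le (fun n => ?_) x
  by_cases hn : n < d
  · have := norm_lift_e R ⟨n, hn⟩
    rw [show ((⟨n, hn⟩ : Fin d) : ℕ) = n from rfl] at this
    rw [this]
    exact h _
  · rw [lift_e_ge R n (not_lt.1 hn), norm_e]
    exact hM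

/-! ### the semigroup -/

section
variable (Q : Matrix (Fin d) (Fin d) ℝ)

/-- the semigroup on `ℓ¹` -/
noncomputable def TQ : NNReal → (E →L[ℝ] E) := fun t => lift (NormedSpace.exp ((t : ℝ) • Q))

set_option backward.isDefEq.respectTransparency false in
theorem exp_cont : Continuous fun t : ℝ => NormedSpace.exp (t • Q) := by
  open scoped Matrix.Norms.Operator in
  have : Continuous fun A : Matrix (Fin d) (Fin d) ℝ => NormedSpace.exp A :=
    NormedSpace.exp_continuous
  exact this.comp (by fun_prop)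

theorem exp_add (s t : ℝ) : NormedSpace.exp ((s + t) • Q) =
    NormedSpace.exp (s • Q) * NormedSpace.exp (t • Q) := by
  rw [add_smul]
  apply Matrix.exp_add_of_commute
  exact (Commute.refl Q).smul_left s |>.smul_right t

set_option backward.isDefEq.respectTransparency false in
theorem exp_deriv (i j : Fin d) :
    HasDerivAt (fun t : ℝ => NormedSpace.exp (t • Q) i j) (Q i j) 0 := by
  open scoped Matrix.Norms.Operator in
  have h := hasDerivAt_exp_smul_const Q (0 : ℝ)
  rw [zero_smul, NormedSpace.exp_zero, one_mul] at h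
  let L : Matrix (Fin d) (Fin d) ℝ →L[ℝ] ℝ :=
    LinearMap.toContinuousLinearMap
      { toFun := fun A => A i j, map_add' := fun _ _ => rfl, map_smul' := fun _ _ => rfl }
  exact L.hasFDerivAt.comp_hasDerivAt (0 : ℝ) h

end

end Pool.Agent.R290.Markov
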