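import Mathlib
import Pool.Agent.R290.Markov2

/-!
# The decoupled Markov group conjecture, part III: conclusion
-/

set_option autoImplicit false
open Set Filter Topology BoundedContinuousFunction
open H520R3.MG

namespace Pool.Agent.R290.Markov

variable {d : ℕ} (Q : Matrix (Fin d) (Fin d) ℝ)

theorem exp_inv : NormedSpace.exp (-Q) * NormedSpace.exp Q = 1 := by
  have h := exp_add Q (-1) 1
  rw [neg_add_cancel, zero_smul, NormedSpace.exp_zero, one_smul, neg_smul, one_smul] at h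
  exact h.symm

theorem exp_inv' : NormedSpace.exp Q * NormedSpace.exp (-Q) = 1 := by
  have h := exp_add Q 1 (-1)
  rw [add_neg_cancel, zero_smul, NormedSpace.exp_zero, one_smul, neg_smul, one_smul] at h
  exact h.symm

theorem TQ_cont (x : E) : Continuous fun t : NNReal => TQ Q t x := by
  have h : (fun t : NNReal => TQ Q t x) = fun t : NNReal =>
      x - em d (pr d x) + em d ((NormedSpace.exp ((t : ℝ) • Q)).mulVec (pr d x)) := rfl
  rw [h]
  refine continuous_const.add ((em d).continuous.comp ?_)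
  have h1 : Continuous fun t : NNReal => NormedSpace.exp ((t : ℝ) • Q) :=
    (exp_cont Q).comp NNReal.continuous_coe
  exact h1.matrix_mulVec continuous_const

theorem TQ_one : TQ Q 1 = lift (NormedSpace.exp Q) := by
  unfold TQ
  rw [NNReal.coe_one, one_smul]

theorem TQ_msg (h : ∀ t : ℝ, 0 ≤ t →
      (∀ i j : Fin d, 0 ≤ NormedSpace.exp (t • Q) i j) ∧
      (∀ j : Fin d, ∑ i : Fin d, NormedSpace.exp (t • Q) i j = 1)) : MSG (TQ Q) where
  zero := by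
    unfold TQ
    rw [NNReal.coe_zero, zero_smul, NormedSpace.exp_zero, lift_one]
  add s t := by
    unfold TQ
    rw [NNReal.coe_add, exp_add, lift_mul]
  cont := TQ_cont Q
  mkv t := lift_mk _ (h t t.2).1 (h t t.2).2
  bij := by
    rw [TQ_one]
    have h1 : (lift (NormedSpace.exp (-Q))).comp (lift (NormedSpace.exp Q)) =
        ContinuousLinearMap.id ℝ E := by
      rw [← lift_mul, exp_inv, lift_one]
    have h2 : (lift (NormedSpace.exp Q)).comp (lift (NormedSpace.exp (-Q))) =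
        ContinuousLinearMap.id ℝ E := by
      rw [← lift_mul, exp_inv', lift_one]
    refine Function.bijective_iff_has_inverse.2 ⟨lift (NormedSpace.exp (-Q)), ?_, ?_⟩
    · intro x
      exact DFunLike.congr_fun h1 x
    · intro x
      exact DFunLike.congr_fun h2 x

theorem TQ_lower {M : ℝ} (hM1 : 1 ≤ M)
    (hM : ∀ j : Fin d, ∑ i : Fin d, |NormedSpace.exp (-Q) i j| ≤ M) (hT : MSG (TQ Q)) :
    ∀ t : NNReal, t ≤ 2 → ∀ x : E, ‖x‖ ≤ M * M * ‖TQ Q t x‖ := by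
  have hcM : ∀ x : E, ‖x‖ ≤ M * ‖TQ Q 1 x‖ := by
    intro x
    have h1 := lift_bound (NormedSpace.exp (-Q)) hM1 hM (TQ Q 1 x)
    have h2 : lift (NormedSpace.exp (-Q)) (TQ Q 1 x) = x := by
      have h3 : (lift (NormedSpace.exp (-Q))).comp (lift (NormedSpace.exp Q)) =
          ContinuousLinearMap.id ℝ E := by
        rw [← lift_mul, exp_inv, lift_one]
      rw [TQ_one]
      exact DFunLike.congr_fun h3 x
    rwa [h2] at h1
  intro t ht x
  have h1 : TQ Q 2 = (TQ Q 1).comp (TQ Q 1) := by rw [← hT.add]; norm_num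
  have h2 : TQ Q 2 = (TQ Q (2 - t)).comp (TQ Q t) := by rw [← hT.add, tsub_add_cancel_of_le ht]
  have h3 : ‖TQ Q 2 x‖ ≤ ‖TQ Q t x‖ := by
    rw [h2]
    exact (hT.mkv (2 - t)).contr _
  have h4 : TQ Q 2 x = TQ Q 1 (TQ Q 1 x) := by rw [h1]; rfl
  calc ‖x‖ ≤ M * ‖TQ Q 1 x‖ := hcM x
    _ ≤ M * (M * ‖TQ Q 1 (TQ Q 1 x)‖) := mul_le_mul_of_nonneg_left (hcM _) (by linarith)
    _ = M * M * ‖TQ Q 2 x‖ := by rw [h4]; ring
    _ ≤ M * M * ‖TQ Q t x‖ := mul_le_mul_of_nonneg_left h3 (by nlinarith)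

theorem hl_tendsto : Tendsto (fun m : ℕ => ((hl m : NNReal) : ℝ)) atTop (𝓝[≠] 0) := by
  rw [tendsto_nhdsWithin_iff]
  refine ⟨?_, Eventually.of_forall fun m => ?_⟩
  · simp_rw [hl_real]
    exact tendsto_pow_atTop_nhds_zero_of_lt_one (by norm_num) (by norm_num)
  · have := hl_pos m
    exact (NNReal.coe_pos.2 this).ne'

/-- difference quotients along dyadic times -/
theorem quot (i j : Fin d) : Tendsto (fun m : ℕ => (2 : ℝ) ^ m *
    (NormedSpace.exp (((hl m : NNReal) : ℝ) • Q) i j - (1 : Matrix (Fin d) (Fin d) ℝ) i j))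
    atTop (𝓝 (Q i j)) := by
  have h := (hasDerivAt_iff_tendsto_slope_zero.1 (exp_deriv Q i j)).comp hl_tendsto
  refine h.congr fun m => ?_
  simp only [Function.comp, zero_add, zero_smul, NormedSpace.exp_zero, smul_eq_mul]
  rw [hl_real]
  congr 1
  rw [one_div, inv_pow, inv_inv]

theorem main (M : ℝ) (hM1 : 1 ≤ M) : ∃ C : ℝ, 0 ≤ C ∧
      ∀ d : ℕ, ∀ Q : Matrix (Fin d) (Fin d) ℝ,
        (∀ j : Fin d, ∑ i : Fin d, |NormedSpace.exp (-Q) i j| ≤ M) →
        (∀ t : ℝ, 0 ≤ t →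
          (∀ i j : Fin d, 0 ≤ NormedSpace.exp (t • Q) i j) ∧
          (∀ j : Fin d, ∑ i : Fin d, NormedSpace.exp (t • Q) i j = 1)) →
        ∀ j : Fin d, ∑ i : Fin d, |Q i j| ≤ C := by
  obtain ⟨l₀, hl₀⟩ := levels_uniform (M * M) (by nlinarith)
  refine ⟨2 ^ (l₀ + 1) * (1 / 2 * Real.exp (3 / 2)), by positivity, fun d Q hM hS j => ?_⟩
  have hT := TQ_msg Q hS
  have hlev := hl₀ (TQ Q) hT (TQ_lower Q hM1 hM hT)
  have hdef := defect hT hlev
  have h1 : Tendsto (fun m : ℕ => ∑ i : Fin d, |(2 : ℝ) ^ m *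
    (NormedSpace.exp (((hl m : NNReal) : ℝ) • Q) i j - (1 : Matrix (Fin d) (Fin d) ℝ) i j)|)
    atTop (𝓝 (∑ i, |Q i j|)) :=
    tendsto_finset_sum _ fun i _ => (quot Q i j).abs
  refine le_of_tendsto h1 ?_
  filter_upwards [eventually_ge_atTop (l₀ + 1)] with m hm
  obtain ⟨k, rfl⟩ := Nat.exists_eq_add_of_le hm
  have h2 := hdef k
  have h3 : Real.exp (3 / 2 - 3 / 2 * (2 / 3) ^ k) ≤ Real.exp (3 / 2) := by
    apply Real.exp_le_exp.2
    have : (0 : ℝ) < (2 / 3) ^ k := by positivity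
    linarith
  have h4 : ‖(Bd (TQ Q) (l₀ + 1 + k)) (e (j : ℕ))‖ ≤ ‖Bd (TQ Q) (l₀ + 1 + k)‖ := by
    have := (Bd (TQ Q) (l₀ + 1 + k)).le_opNorm (e (j : ℕ))
    rwa [norm_e, mul_one] at this
  set R := NormedSpace.exp (((hl (l₀ + 1 + k) : NNReal) : ℝ) • Q) with hR
  have h5 : (Bd (TQ Q) (l₀ + 1 + k)) (e (j : ℕ)) = em d (fun i => (1 : Matrix (Fin d) (Fin d) ℝ) i j - R i j) := by
    have e1 : (Bd (TQ Q) (l₀ + 1 + k)) (e (j : ℕ)) = e (j : ℕ) - lift R (e (j : ℕ)) := rfl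
    rw [e1, lift_apply, pr_e]
    have e2 : (fun i => (1 : Matrix (Fin d) (Fin d) ℝ) i j - R i j) =
        Pi.single j 1 - R.mulVec (Pi.single j 1) := by
      ext i
      rw [Pi.sub_apply, Matrix.mulVec_single_one]
      congr 1
      rw [Matrix.one_apply, Pi.single_apply]
    rw [e2, map_sub]
    abel
  rw [h5, norm_em] at h4
  have h6 : ∑ i : Fin d, |(2 : ℝ) ^ (l₀ + 1 + k) * (R i j - (1 : Matrix (Fin d) (Fin d) ℝ) i j)| =
      2 ^ (l₀ + 1) * (2 ^ k * ∑ i : Fin d, |(1 : Matrix (Fin d) (Fin d) ℝ) i j - R i j|) := by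
    rw [Finset.mul_sum, Finset.mul_sum]
    refine Finset.sum_congr rfl fun i _ => ?_
    rw [abs_mul, abs_of_pos (by positivity : (0 : ℝ) < 2 ^ (l₀ + 1 + k)), abs_sub_comm,
      pow_add (2 : ℝ) (l₀ + 1) k]
    ring
  rw [h6]
  have h7 : (0 : ℝ) < 2 ^ k := by positivity
  calc (2 : ℝ) ^ (l₀ + 1) * (2 ^ k * ∑ i : Fin d, |(1 : Matrix (Fin d) (Fin d) ℝ) i j - R i j|)
      ≤ 2 ^ (l₀ + 1) * (2 ^ k * ‖Bd (TQ Q) (l₀ + 1 + k)‖) := by gcongr
    _ ≤ 2 ^ (l₀ + 1) * (1 / 2 * Real.exp (3 / 2 - 3 / 2 * (2 / 3) ^ k)) := by gcongr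
    _ ≤ _ := by gcongr

end Pool.Agent.R290.Markov
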