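import Mathlib

/-!
A combinatorial lemma: a connected graph (every proper nonempty vertex set has a cut
edge) with as many edges as vertices, and all degrees at most `D`, has a vertex set of
moderate size with at most two cut edges.
-/

namespace Pool.Agent.R290.TreeCut

open Finset

variable {V B : Type*} [Fintype V] [DecidableEq V] [Fintype B] [DecidableEq B]

/-- `b` joins `v` and `w`. -/
def Joins (s t : B → V) (b : B) (v w : V) : Prop := (s b = v ∧ t b = w) ∨ (s b = w ∧ t b = v)

/-- cut edges of `S` -/
def cut (s t : B → V) (S : Finset V) : Finset B :=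
  Finset.univ.filter (fun b => ¬ (s b ∈ S ↔ t b ∈ S))

/-- balls -/
def ball (s t : B → V) (r : V) : ℕ → Set V
  | 0 => {r}
  | n + 1 => ball s t r n ∪ {v | ∃ w ∈ ball s t r n, ∃ b, Joins s t b v w}

lemma exists_parent (s t : B → V) (r : V)
    (hconn : ∀ S : Finset V, S.Nonempty → S ≠ Finset.univ → (cut s t S).Nonempty) :
    ∃ (d : V → ℕ) (π : V → V) (ε : V → Option B), π r = r ∧
      ∀ v, v ≠ r → d (π v) < d v ∧ ∃ b, ε v = some b ∧ Joins s t b v (π v) := by
  classical
  have hall : ∀ v, ∃ n, v ∈ ball s t r n := by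
    by_contra hcon
    push Not at hcon
    obtain ⟨v0, hv0⟩ := hcon
    let S : Finset V := Finset.univ.filter (fun v => ∃ n, v ∈ ball s t r n)
    have hr : r ∈ S := by
      simp only [S, Finset.mem_filter, Finset.mem_univ, true_and]
      exact ⟨0, rfl⟩
    have hne : S ≠ Finset.univ := by
      intro h
      have : v0 ∈ S := by rw [h]; exact Finset.mem_univ _
      simp only [S, Finset.mem_filter, Finset.mem_univ, true_and] at this
      obtain ⟨n, hn⟩ := this
      exact hv0 n hn
    obtain ⟨b, hb⟩ := hconn S ⟨r, hr⟩ hne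
    simp only [cut, Finset.mem_filter, Finset.mem_univ, true_and, S] at hb
    apply hb
    constructor
    · rintro ⟨n, hn⟩
      exact ⟨n + 1, Or.inr ⟨s b, hn, b, Or.inr ⟨rfl, rfl⟩⟩⟩
    · rintro ⟨n, hn⟩
      exact ⟨n + 1, Or.inr ⟨t b, hn, b, Or.inl ⟨rfl, rfl⟩⟩⟩
  let d : V → ℕ := fun v => Nat.find (hall v)
  have hd : ∀ v, v ∈ ball s t r (d v) := fun v => Nat.find_spec (hall v)
  have hdmin : ∀ v n, v ∈ ball s t r n → d v ≤ n := fun v n h => Nat.find_min' (hall v) h
  have hpar : ∀ v, ∃ w : V, ∃ o : Option B, (v = r → w = r) ∧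
      (v ≠ r → d w < d v ∧ ∃ b, o = some b ∧ Joins s t b v w) := by
    intro v
    by_cases hv : v = r
    · exact ⟨r, none, fun _ => rfl, fun h => absurd hv h⟩
    · have h1 := hd v
      rcases hn : d v with _ | n
      · rw [hn] at h1
        exact absurd h1 hv
      · rw [hn] at h1
        rcases h1 with h1 | ⟨w, hw, b, hb⟩
        · have := hdmin v n h1
          omega
        · refine ⟨w, some b, fun h => absurd h hv, fun _ => ⟨?_, b, rfl, hb⟩⟩
          have := hdmin w n hw
          omega
  choose π ε h1 h2 using hpar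
  exact ⟨d, π, ε, h1 r rfl, h2⟩

theorem exists_small_cut (s t : B → V)
    (hconn : ∀ S : Finset V, S.Nonempty → S ≠ Finset.univ → (cut s t S).Nonempty)
    (p D : ℕ) (hp : 0 < p) (hV : Fintype.card V = 2 * p) (hB : Fintype.card B = 2 * p)
    (hD : 0 < D)
    (hdeg : ∀ v : V, (Finset.univ.filter (fun b => s b = v ∨ t b = v)).card ≤ D) :
    ∃ S : Finset V, S.card ≤ p ∧ p ≤ D * S.card ∧ (cut s t S).card ≤ 2 := by
  classical
  have hVne : 0 < Fintype.card V := by omega
  obtain ⟨r⟩ : Nonempty V := Fintype.card_pos_iff.1 hVne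
  obtain ⟨d, π, ε, hr, hpar⟩ := exists_parent s t r hconn
  -- iterates
  have hdle : ∀ v, d (π v) ≤ d v := by
    intro v
    by_cases hv : v = r
    · rw [hv, hr]
    · exact (hpar v hv).1.le
  have hdit : ∀ k v, d (π^[k] v) ≤ d v := by
    intro k
    induction k with
    | zero => intro v; exact le_rfl
    | succ k ih =>
      intro v
      rw [Function.iterate_succ_apply]
      exact (ih (π v)).trans (hdle v)
  let S : V → Finset V := fun v => Finset.univ.filter (fun u => ∃ k, π^[k] u = v)
  have memS : ∀ u v, u ∈ S v ↔ ∃ k, π^[k] u = v := by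
    intro u v
    simp [S]
  have hself : ∀ v, v ∈ S v := fun v => (memS v v).2 ⟨0, rfl⟩
  have hup : ∀ u v, u ∈ S v → u ≠ v → π u ∈ S v := by
    intro u v hu huv
    obtain ⟨k, hk⟩ := (memS u v).1 hu
    cases k with
    | zero => exact absurd hk huv
    | succ k => exact (memS _ _).2 ⟨k, by rwa [Function.iterate_succ_apply] at hk⟩
  have hdown : ∀ u v, π u ∈ S v → u ∈ S v := by
    intro u v hu
    obtain ⟨k, hk⟩ := (memS _ v).1 hu
    exact (memS _ _).2 ⟨k + 1, by rwa [Function.iterate_succ_apply]⟩
  have hSr : S r = Finset.univ := by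
    have : ∀ n, ∀ v, d v = n → v ∈ S r := by
      intro n
      induction n using Nat.strong_induction_on with
      | _ n ih =>
        intro v hv
        by_cases hvr : v = r
        · rw [hvr]; exact hself r
        · exact hdown v r (ih (d (π v)) (by rw [← hv]; exact (hpar v hvr).1) (π v) rfl)
    exact Finset.eq_univ_iff_forall.2 fun v => this (d v) v rfl
  -- children
  let C : V → Finset V := fun v => Finset.univ.filter (fun w => w ≠ r ∧ π w = v)
  have memC : ∀ w v, w ∈ C v ↔ w ≠ r ∧ π w = v := by
    intro w v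
    simp [C]
  have hcover : ∀ v, S v ⊆ insert v ((C v).biUnion S) := by
    intro v u hu
    obtain ⟨k, hk⟩ := (memS u v).1 hu
    by_cases huv : u = v
    · exact Finset.mem_insert.2 (Or.inl huv)
    · refine Finset.mem_insert.2 (Or.inr ?_)
      -- minimal k
      have hex : ∃ k, π^[k] u = v := ⟨k, hk⟩
      have hk0 := Nat.find_spec hex
      have hkmin := fun m (h : m < Nat.find hex) => Nat.find_min hex h
      rcases hk1 : Nat.find hex with _ | m
      · rw [hk1] at hk0
        exact absurd hk0 huv
      · rw [hk1] at hk0 hkmin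
        rw [Function.iterate_succ_apply'] at hk0
        have hm := hkmin m (Nat.lt_succ_self m)
        refine Finset.mem_biUnion.2 ⟨π^[m] u, (memC _ _).2 ⟨?_, hk0⟩, (memS _ _).2 ⟨m, rfl⟩⟩
        intro h
        rw [h, hr] at hk0
        exact hm (h.trans hk0)
  have hsub : ∀ v w, w ∈ C v → (S w).card < (S v).card := by
    intro v w hw
    obtain ⟨hwr, hwv⟩ := (memC _ _).1 hw
    apply Finset.card_lt_card
    refine (Finset.ssubset_iff_of_subset ?_).2 ⟨v, hself v, ?_⟩
    · intro u hu
      obtain ⟨k, hk⟩ := (memS u w).1 hu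
      exact (memS _ _).2 ⟨k + 1, by rw [Function.iterate_succ_apply', hk, hwv]⟩
    · intro hv
      obtain ⟨k, hk⟩ := (memS _ _).1 hv
      have h1 := hdit k v
      rw [hk] at h1
      have h2 := (hpar w hwr).1
      rw [hwv] at h2
      omega
  -- injectivity of ε
  have hinj : ∀ v w, v ≠ r → w ≠ r → ε v = ε w → v = w := by
    intro v w hv hw hvw
    obtain ⟨hd1, b, hb, hj⟩ := hpar v hv
    obtain ⟨hd2, b', hb', hj'⟩ := hpar w hw
    have : b = b' := by
      rw [hb, hb'] at hvw
      exact Option.some.inj hvw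
    subst this
    rcases hj with ⟨h1, h2⟩ | ⟨h1, h2⟩ <;> rcases hj' with ⟨h3, h4⟩ | ⟨h3, h4⟩
    · exact h1.symm.trans h3
    · have e1 : v = π w := h1.symm.trans h3
      have e2 : w = π v := h4.symm.trans h2
      rw [← e2] at hd1
      rw [← e1] at hd2
      omega
    · have e1 : π v = w := h1.symm.trans h3
      have e2 : v = π w := h2.symm.trans h4
      rw [e1] at hd1
      rw [← e2] at hd2
      omega
    · exact h2.symm.trans h4
  have hCdeg : ∀ v, (C v).card ≤ D := by
    intro v
    refine le_trans ?_ (hdeg v)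
    have h1 : ((C v).image ε).card = (C v).card := by
      apply Finset.card_image_of_injOn
      intro a ha b hb hab
      exact hinj a b ((memC _ _).1 (Finset.mem_coe.1 ha)).1
        ((memC _ _).1 (Finset.mem_coe.1 hb)).1 hab
    rw [← h1]
    have h2 : (C v).image ε ⊆ (Finset.univ.filter (fun b => s b = v ∨ t b = v)).image some := by
      intro o ho
      obtain ⟨w, hw, rfl⟩ := Finset.mem_image.1 ho
      obtain ⟨hwr, hwv⟩ := (memC _ _).1 hw
      obtain ⟨_, b, hb, hj⟩ := hpar w hwr
      refine Finset.mem_image.2 ⟨b, ?_, hb.symm⟩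
      simp only [Finset.mem_filter, Finset.mem_univ, true_and]
      rcases hj with ⟨h3, h4⟩ | ⟨h3, h4⟩
      · right; rw [h4, hwv]
      · left; rw [h3, hwv]
    refine (Finset.card_le_card h2).trans ?_
    exact Finset.card_image_le
  -- choice of v
  let m := (p - 1) / D + 1
  have hm1 : D * (m - 1) ≤ p - 1 := by
    simp only [m, Nat.add_sub_cancel]
    exact Nat.mul_div_le (p - 1) D
  have hm2 : p ≤ D * m := by
    have := Nat.lt_mul_div_succ (p - 1) hD
    simp only [m]
    omega
  have hmle : m ≤ 2 * p := by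
    have : (p - 1) / D ≤ p - 1 := Nat.div_le_self _ _
    simp only [m]
    omega
  have hexv : (Finset.univ.filter (fun v => m ≤ (S v).card)).Nonempty := by
    refine ⟨r, ?_⟩
    simp only [Finset.mem_filter, Finset.mem_univ, true_and]
    rw [hSr, Finset.card_univ, hV]
    exact hmle
  obtain ⟨v, hv, hvmin⟩ := Finset.exists_min_image _ (fun v => (S v).card) hexv
  simp only [Finset.mem_filter, Finset.mem_univ, true_and] at hv hvmin
  have hchild : ∀ w ∈ C v, (S w).card ≤ m - 1 := by
    intro w hw
    by_contra hcon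
    have h1 : m ≤ (S w).card := by omega
    have h2 := hvmin w h1
    have h3 := hsub v w hw
    omega
  have hSv : (S v).card ≤ p := by
    calc (S v).card ≤ (insert v ((C v).biUnion S)).card := Finset.card_le_card (hcover v)
      _ ≤ ((C v).biUnion S).card + 1 := Finset.card_insert_le _ _
      _ ≤ (∑ w ∈ C v, (S w).card) + 1 := by
          gcongr
          exact Finset.card_biUnion_le
      _ ≤ (∑ w ∈ C v, (m - 1)) + 1 := by
          gcongr with w hw
          exact hchild w hw
      _ = (C v).card * (m - 1) + 1 := by rw [Finset.sum_const, smul_eq_mul]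
      _ ≤ D * (m - 1) + 1 := by gcongr; exact hCdeg v
      _ ≤ p := by omega
  have hvr : v ≠ r := by
    intro h
    rw [h, hSr, Finset.card_univ, hV] at hSv
    omega
  refine ⟨S v, hSv, hm2.trans (Nat.mul_le_mul_left _ hv), ?_⟩
  -- the cut
  let Tr : Finset B := Finset.univ.filter (fun b => ∃ w, w ≠ r ∧ ε w = some b)
  have hTr : 2 * p - 1 ≤ Tr.card := by
    have h1 : ((Finset.univ.erase r).image ε).card = 2 * p - 1 := by
      rw [Finset.card_image_of_injOn, Finset.card_erase_of_mem (Finset.mem_univ _),
        Finset.card_univ, hV]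
      intro a ha b hb hab
      exact hinj a b (Finset.ne_of_mem_erase (Finset.mem_coe.1 ha))
        (Finset.ne_of_mem_erase (Finset.mem_coe.1 hb)) hab
    have h2 : (Finset.univ.erase r).image ε ⊆ Tr.image some := by
      intro o ho
      obtain ⟨w, hw, rfl⟩ := Finset.mem_image.1 ho
      have hwr := Finset.ne_of_mem_erase hw
      obtain ⟨_, b, hb, hj⟩ := hpar w hwr
      refine Finset.mem_image.2 ⟨b, ?_, hb.symm⟩
      simp only [Tr, Finset.mem_filter, Finset.mem_univ, true_and]
      exact ⟨w, hwr, hb⟩
    rw [← h1]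
    exact (Finset.card_le_card h2).trans Finset.card_image_le
  obtain ⟨_, bv, hbv, _⟩ := hpar v hvr
  have hcutsub : cut s t (S v) ⊆ insert bv (Finset.univ \ Tr) := by
    intro b hb
    rw [Finset.mem_insert, Finset.mem_sdiff]
    by_cases hbT : b ∈ Tr
    · left
      simp only [Tr, Finset.mem_filter, Finset.mem_univ, true_and] at hbT
      obtain ⟨w, hwr, hw⟩ := hbT
      obtain ⟨_, b', hb', hj⟩ := hpar w hwr
      have : b' = b := by
        rw [hb'] at hw
        exact Option.some.inj hw
      subst this
      simp only [cut, Finset.mem_filter, Finset.mem_univ, true_and] at hb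
      have hwv : w = v := by
        by_contra hne
        apply hb
        have : (w ∈ S v ↔ π w ∈ S v) := ⟨fun h => hup w v h hne, fun h => hdown w v h⟩
        rcases hj with ⟨h3, h4⟩ | ⟨h3, h4⟩
        · rw [h3, h4]; exact this
        · rw [h3, h4]; exact this.symm
      subst hwv
      rw [hbv] at hb'
      exact (Option.some.inj hb').symm
    · right
      exact ⟨Finset.mem_univ _, hbT⟩
  calc (cut s t (S v)).card ≤ (insert bv (Finset.univ \ Tr)).card := Finset.card_le_card hcutsub
    _ ≤ (Finset.univ \ Tr).card + 1 := Finset.card_insert_le _ _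
    _ ≤ 2 := by
      rw [Finset.card_sdiff_of_subset (Finset.subset_univ _), Finset.card_univ, hB]
      omega

end Pool.Agent.R290.TreeCut
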