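import Pool.Agent.R290.WaveFT

/-!
The periodisation lemma and the vanishing integrals for the explicit set
`Ω = [3/7,5/7) ∪ [1,2) ∪ [3,24/7) ∪ [40/7,6)`.
-/

namespace Pool.Agent.R290.WaveBasis

open MeasureTheory Complex Set
open scoped ENNReal InnerProductSpace Interval
open Pool.Agent.R290.WaveFT

/-- the set -/
def Om : Set ℝ := Ico (3 / 7) (5 / 7) ∪ Ico 1 2 ∪ Ico 3 (24 / 7) ∪ Ico (40 / 7) 6

lemma Om_meas : MeasurableSet Om := by unfold Om; measurability

lemma Om_pos {x : ℝ} (h : x ∈ Om) : 0 < x := by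
  rcases h with ((⟨h, _⟩ | ⟨h, _⟩) | ⟨h, _⟩) | ⟨h, _⟩ <;> linarith

lemma Om_lt {x : ℝ} (h : x ∈ Om) : x < 6 := by
  rcases h with ((⟨_, h⟩ | ⟨_, h⟩) | ⟨_, h⟩) | ⟨_, h⟩ <;> linarith

/-- the integral of an exponential over the pieces -/
lemma int_Om (F : ℝ → ℂ) (hF : ∀ a b : ℝ, IntervalIntegrable F volume a b) :
    ∫ η in Om, F η = (∫ η in (3/7:ℝ)..(5/7), F η) + (∫ η in (1:ℝ)..2, F η) +
      (∫ η in (3:ℝ)..(24/7), F η) + ∫ η in (40/7:ℝ)..6, F η := by
  have hI : ∀ a b : ℝ, a ≤ b → IntegrableOn F (Ico a b) volume := by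
    intro a b hab
    rw [integrableOn_Ico_iff_integrableOn_Ioo, ← integrableOn_Ioc_iff_integrableOn_Ioo]
    exact (intervalIntegrable_iff_integrableOn_Ioc_of_le hab).1 (hF a b)
  have hE : ∀ a b : ℝ, a ≤ b → ∫ η in Ico a b, F η = ∫ η in a..b, F η := by
    intro a b hab
    rw [intervalIntegral.integral_of_le hab, integral_Ico_eq_integral_Ioo,
      integral_Ioc_eq_integral_Ioo]
  have d1 : Disjoint (Ico (3/7:ℝ) (5/7)) (Ico 1 2) := by
    rw [Set.disjoint_left]; rintro x ⟨_, h1⟩ ⟨h2, _⟩; linarith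
  have d2 : Disjoint (Ico (3/7:ℝ) (5/7) ∪ Ico 1 2) (Ico 3 (24/7)) := by
    rw [Set.disjoint_left]; rintro x (⟨_, h1⟩ | ⟨_, h1⟩) ⟨h2, _⟩ <;> linarith
  have d3 : Disjoint (Ico (3/7:ℝ) (5/7) ∪ Ico 1 2 ∪ Ico 3 (24/7)) (Ico (40/7) 6) := by
    rw [Set.disjoint_left]; rintro x ((⟨_, h1⟩ | ⟨_, h1⟩) | ⟨_, h1⟩) ⟨h2, _⟩ <;> linarith
  have i1 := hI (3/7) (5/7) (by norm_num)
  have i2 := hI 1 2 (by norm_num)
  have i3 := hI 3 (24/7) (by norm_num)
  have i4 := hI (40/7) 6 (by norm_num)
  unfold Om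
  rw [setIntegral_union d3 measurableSet_Ico ((i1.union i2).union i3) i4,
    setIntegral_union d2 measurableSet_Ico (i1.union i2) i3,
    setIntegral_union d1 measurableSet_Ico i1 i2,
    hE _ _ (by norm_num), hE _ _ (by norm_num), hE _ _ (by norm_num), hE _ _ (by norm_num)]

lemma norm_cexp_I (x : ℝ) : ‖cexp ((x : ℂ) * I)‖ = 1 := Complex.norm_exp_ofReal_mul_I x

/-- uniqueness of Fourier coefficients on `(0,1]` -/
lemma fourier_unique (G : ℝ → ℂ) (hG : MemLp G 2 volume)
    (h : ∀ m : ℤ, ∫ θ in (0:ℝ)..1, cexp (2 * Real.pi * m * θ * I) * G θ = 0) :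
    ∀ᵐ θ : ℝ, θ ∈ Ioc (0:ℝ) 1 → G θ = 0 := by
  have hG' : MemLp G 2 (volume.restrict (Ioc 0 1)) := hG.restrict _
  have h1 := hasSum_sq_fourierCoeffOn (a := 0) (b := 1) (f := G) one_pos hG'
  have h2 : ∀ n : ℤ, fourierCoeffOn (one_pos : (0:ℝ) < 1) G n = 0 := by
    intro n
    rw [fourierCoeffOn_eq_integral]
    have h3 : ∫ x in (0:ℝ)..1, fourier (-n) (x : AddCircle ((1:ℝ) - 0)) • G x =
        ∫ θ in (0:ℝ)..1, cexp (2 * Real.pi * ((-n : ℤ) : ℂ) * θ * I) * G θ := by
      refine intervalIntegral.integral_congr fun x _ => ?_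
      simp only [smul_eq_mul]
      congr 1
      rw [fourier_coe_apply]
      congr 1
      push_cast
      ring
    rw [h3, h (-n), smul_zero]
  have h3 : ∫ x in (0:ℝ)..1, ‖G x‖ ^ 2 = 0 := by
    have h4 : (fun i : ℤ => ‖fourierCoeffOn (one_pos : (0:ℝ) < 1) G i‖ ^ 2) = fun _ => 0 := by
      funext i
      rw [h2 i]
      simp
    rw [h4] at h1
    have h5 := h1.unique hasSum_zero
    simpa using h5
  rw [intervalIntegral.integral_of_le zero_le_one] at h3
  have h4 : Integrable (fun x => ‖G x‖ ^ 2) (volume.restrict (Ioc 0 1)) := by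
    have := hG'.integrable_norm_rpow (by norm_num) (by norm_num)
    simpa using this
  rw [integral_eq_zero_iff_of_nonneg (fun x => by positivity) h4] at h3
  rw [Filter.EventuallyEq, ae_restrict_iff' measurableSet_Ioc] at h3
  filter_upwards [h3] with x hx hx1
  have := hx hx1
  simpa using this

/-- periodisation -/
lemma period (g : ℝ → ℂ) (hg : MemLp g 2 volume)
    (h : ∀ m : ℤ, ∫ η in Om, cexp (2 * Real.pi * (m - 1 / 2) * η * I) * g η = 0) :
    (∀ᵐ η : ℝ, η ∈ Ico (3/7:ℝ) (5/7) → g η = g (η + 1)) ∧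
    (∀ᵐ η : ℝ, η ∈ Ico (1:ℝ) (10/7) → g η = - g (η + 2)) ∧
    (∀ᵐ η : ℝ, η ∈ Ico (12/7:ℝ) 2 → g η = - g (η + 4)) := by
  set k : ℝ → ℂ := fun η => cexp (((-(Real.pi * η) : ℝ) : ℂ) * I) * g η with hk
  have hkL : MemLp k 2 volume := by
    refine MemLp.of_le_mul hg (c := 1)
      ((Measurable.aestronglyMeasurable (by fun_prop)).mul hg.1) ?_
    filter_upwards with x
    rw [hk]
    simp only
    rw [norm_mul, norm_cexp_I]
  have hkj : ∀ j : ℝ, MemLp (fun θ => k (θ + j)) 2 volume := by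
    intro j
    have := memLp_comp k hkL 1 j one_ne_zero
    simpa using this
  set A : ℝ → ℂ := fun θ => k (θ + 1) + k (θ + 3) with hA
  set B : ℝ → ℂ := fun θ => k θ + k (θ + 1) with hB
  set C : ℝ → ℂ := fun θ => k (θ + 1) + k (θ + 5) with hC
  have hAL : MemLp A 2 volume := (hkj 1).add (hkj 3)
  have hBL : MemLp B 2 volume := hkL.add (hkj 1)
  have hCL : MemLp C 2 volume := (hkj 1).add (hkj 5)
  set G : ℝ → ℂ := fun θ => (Iio (3/7:ℝ)).indicator A θ + (Ico (3/7:ℝ) (5/7)).indicator B θ +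
    (Ici (5/7:ℝ)).indicator C θ with hG
  have hGL : MemLp G 2 volume :=
    ((hAL.indicator measurableSet_Iio).add (hBL.indicator measurableSet_Ico)).add
      (hCL.indicator measurableSet_Ici)
  have hGA : ∀ θ : ℝ, θ < 3/7 → G θ = A θ := by
    intro θ hθ
    have h1 : θ ∈ Iio (3/7:ℝ) := hθ
    have h2 : θ ∉ Ico (3/7:ℝ) (5/7) := fun h => absurd h.1 (not_le.2 hθ)
    have h3 : θ ∉ Ici (5/7:ℝ) := fun h => absurd (mem_Ici.1 h) (by linarith)
    simp only [hG, indicator_of_mem h1, indicator_of_notMem h2, indicator_of_notMem h3, add_zero]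
  have hGB : ∀ θ : ℝ, 3/7 ≤ θ → θ < 5/7 → G θ = B θ := by
    intro θ hθ hθ'
    have h1 : θ ∉ Iio (3/7:ℝ) := fun h => absurd (mem_Iio.1 h) (by linarith)
    have h2 : θ ∈ Ico (3/7:ℝ) (5/7) := ⟨hθ, hθ'⟩
    have h3 : θ ∉ Ici (5/7:ℝ) := fun h => absurd (mem_Ici.1 h) (by linarith)
    simp only [hG, indicator_of_notMem h1, indicator_of_mem h2, indicator_of_notMem h3, add_zero,
      zero_add]
  have hGC : ∀ θ : ℝ, 5/7 ≤ θ → G θ = C θ := by
    intro θ hθ
    have h1 : θ ∉ Iio (3/7:ℝ) := fun h => absurd (mem_Iio.1 h) (by linarith)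
    have h2 : θ ∉ Ico (3/7:ℝ) (5/7) := fun h => absurd h.2 (by linarith)
    have h3 : θ ∈ Ici (5/7:ℝ) := hθ
    simp only [hG, indicator_of_notMem h1, indicator_of_notMem h2, indicator_of_mem h3, zero_add]
  have hint : ∀ (f : ℝ → ℂ), MemLp f 2 volume → ∀ (m : ℤ) (a b : ℝ),
      IntervalIntegrable (fun θ => cexp (2 * Real.pi * m * θ * I) * f θ) volume a b := by
    intro f hf m a b
    have h1 : IntervalIntegrable f volume a b := by
      rw [intervalIntegrable_iff]
      have : IsFiniteMeasure (volume.restrict (Ι a b)) := ⟨by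
        rw [Measure.restrict_apply_univ, uIoc]
        exact measure_Ioc_lt_top⟩
      exact (hf.restrict _).integrable (by norm_num)
    exact h1.continuousOn_mul (by fun_prop)
  have hper : ∀ (m : ℤ) (j : ℕ) (x : ℝ), cexp (2 * Real.pi * m * ((x + j : ℝ) : ℂ) * I) =
      cexp (2 * Real.pi * m * x * I) := by
    intro m j x
    have : (2 * Real.pi * m * ((x + j : ℝ) : ℂ) * I) =
        2 * Real.pi * m * x * I + ((m * j : ℤ) : ℂ) * (2 * Real.pi * I) := by
      push_cast; ring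
    rw [this, Complex.exp_add, Complex.exp_int_mul_two_pi_mul_I, mul_one]
  have hcoef : ∀ m : ℤ, ∫ θ in (0:ℝ)..1, cexp (2 * Real.pi * m * θ * I) * G θ = 0 := by
    intro m
    set K : ℝ → ℂ := fun θ => cexp (2 * Real.pi * m * θ * I) * k θ with hK
    have hKi : ∀ a b : ℝ, IntervalIntegrable K volume a b := hint k hkL m
    have hshift : ∀ (j : ℕ) (a b : ℝ), ∫ θ in a..b, cexp (2 * Real.pi * m * θ * I) * k (θ + j) =
        ∫ θ in (a + j)..(b + j), K θ := by
      intro j a b
      rw [← intervalIntegral.integral_comp_add_right]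
      refine intervalIntegral.integral_congr fun x _ => ?_
      simp only [hK]
      rw [hper m j x]
    have hKOm : ∫ η in Om, K η = 0 := by
      rw [← h m]
      refine setIntegral_congr_fun Om_meas fun x _ => ?_
      simp only [hK, hk]
      rw [← mul_assoc, ← Complex.exp_add]
      congr 2
      push_cast
      ring
    have e1 : ∫ θ in (0:ℝ)..(3/7), cexp (2 * Real.pi * m * θ * I) * G θ =
        (∫ θ in (1:ℝ)..(10/7), K θ) + ∫ θ in (3:ℝ)..(24/7), K θ := by
      have : ∫ θ in (0:ℝ)..(3/7), cexp (2 * Real.pi * m * θ * I) * G θ =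
          ∫ θ in (0:ℝ)..(3/7), (cexp (2 * Real.pi * m * θ * I) * k (θ + (1:ℕ)) +
            cexp (2 * Real.pi * m * θ * I) * k (θ + (3:ℕ))) := by
        refine intervalIntegral.integral_congr_ae ?_
        have hne : ∀ᵐ x : ℝ, x ≠ 3/7 := by
          simp [ae_iff, measure_singleton]
        filter_upwards [hne] with x hx hx2
        rw [uIoc_of_le (by norm_num)] at hx2
        rw [hGA x (lt_of_le_of_ne hx2.2 hx)]
        simp only [hA]
        push_cast
        ring
      rw [this, intervalIntegral.integral_add, hshift, hshift]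
      · norm_num
      · have := hint _ (hkj (1:ℕ)) m 0 (3/7)
        exact this
      · have := hint _ (hkj (3:ℕ)) m 0 (3/7)
        exact this
    have e2 : ∫ θ in (3/7:ℝ)..(5/7), cexp (2 * Real.pi * m * θ * I) * G θ =
        (∫ θ in (3/7:ℝ)..(5/7), K θ) + ∫ θ in (10/7:ℝ)..(12/7), K θ := by
      have : ∫ θ in (3/7:ℝ)..(5/7), cexp (2 * Real.pi * m * θ * I) * G θ =
          ∫ θ in (3/7:ℝ)..(5/7), (cexp (2 * Real.pi * m * θ * I) * k (θ + (0:ℕ)) +
            cexp (2 * Real.pi * m * θ * I) * k (θ + (1:ℕ))) := by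
        refine intervalIntegral.integral_congr_ae ?_
        have hne : ∀ᵐ x : ℝ, x ≠ 5/7 := by
          simp [ae_iff, measure_singleton]
        filter_upwards [hne] with x hx hx2
        rw [uIoc_of_le (by norm_num)] at hx2
        rw [hGB x hx2.1.le (lt_of_le_of_ne hx2.2 hx)]
        simp only [hB]
        push_cast
        rw [add_zero]
        ring
      rw [this, intervalIntegral.integral_add, hshift, hshift]
      · norm_num
      · have := hint _ (hkj (0:ℕ)) m (3/7) (5/7)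
        exact this
      · have := hint _ (hkj (1:ℕ)) m (3/7) (5/7)
        exact this
    have e3 : ∫ θ in (5/7:ℝ)..1, cexp (2 * Real.pi * m * θ * I) * G θ =
        (∫ θ in (12/7:ℝ)..2, K θ) + ∫ θ in (40/7:ℝ)..6, K θ := by
      have : ∫ θ in (5/7:ℝ)..1, cexp (2 * Real.pi * m * θ * I) * G θ =
          ∫ θ in (5/7:ℝ)..1, (cexp (2 * Real.pi * m * θ * I) * k (θ + (1:ℕ)) +
            cexp (2 * Real.pi * m * θ * I) * k (θ + (5:ℕ))) := by
        refine intervalIntegral.integral_congr_ae ?_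
        filter_upwards with x hx2
        rw [uIoc_of_le (by norm_num)] at hx2
        rw [hGC x hx2.1.le]
        simp only [hC]
        push_cast
        ring
      rw [this, intervalIntegral.integral_add, hshift, hshift]
      · norm_num
      · have := hint _ (hkj (1:ℕ)) m (5/7) 1
        exact this
      · have := hint _ (hkj (5:ℕ)) m (5/7) 1
        exact this
    have hGi := hint G hGL m
    rw [← intervalIntegral.integral_add_adjacent_intervals (hGi 0 (3/7)) (hGi (3/7) 1),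
      ← intervalIntegral.integral_add_adjacent_intervals (hGi (3/7) (5/7)) (hGi (5/7) 1),
      e1, e2, e3]
    rw [int_Om K hKi, ← intervalIntegral.integral_add_adjacent_intervals (hKi 1 (10/7))
      (hKi (10/7) 2), ← intervalIntegral.integral_add_adjacent_intervals (hKi (10/7) (12/7))
      (hKi (12/7) 2)] at hKOm
    rw [← hKOm]
    ring
  have hzero := fourier_unique G hGL hcoef
  have hexp : ∀ (j : ℝ) (θ : ℝ), cexp (((-(Real.pi * (θ + j)) : ℝ) : ℂ) * I) =
      cexp (((-(Real.pi * θ) : ℝ) : ℂ) * I) * cexp (((-(Real.pi * j) : ℝ) : ℂ) * I) := by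
    intro j θ
    rw [← Complex.exp_add]
    congr 1
    push_cast
    ring
  have hodd : cexp (((-(Real.pi * 1) : ℝ) : ℂ) * I) = -1 := by
    have : (((-(Real.pi * 1) : ℝ) : ℂ) * I) = -(Real.pi * I) := by push_cast; ring
    rw [this, Complex.exp_neg, Complex.exp_pi_mul_I]
    norm_num
  have heven : ∀ j : ℤ, cexp (((-(Real.pi * (2 * j)) : ℝ) : ℂ) * I) = 1 := by
    intro j
    have : (((-(Real.pi * (2 * j)) : ℝ) : ℂ) * I) = ((-j : ℤ) : ℂ) * (2 * Real.pi * I) := by
      push_cast; ring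
    rw [this, Complex.exp_int_mul_two_pi_mul_I]
  refine ⟨?_, ?_, ?_⟩
  · filter_upwards [hzero] with η h1 h2
    have h3 := h1 ⟨by linarith [h2.1], by linarith [h2.2]⟩
    rw [hGB η h2.1 h2.2] at h3
    simp only [hB, hk] at h3
    rw [hexp 1 η, hodd] at h3
    have h4 : cexp (((-(Real.pi * η) : ℝ) : ℂ) * I) * (g η - g (η + 1)) = 0 := by
      rw [← h3]; ring
    rcases mul_eq_zero.1 h4 with h5 | h5
    · exact absurd h5 (Complex.exp_ne_zero _)
    · exact sub_eq_zero.1 h5
  · have h1 : ∀ᵐ η : ℝ, η - 1 ∈ Ioc (0:ℝ) 1 → G (η - 1) = 0 := by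
      have := (quasi 1 (-1) one_ne_zero).ae hzero
      filter_upwards [this] with η h2
      have h3 : 1 * η + -1 = η - 1 := by ring
      rw [h3] at h2
      exact h2
    have hne : ∀ᵐ x : ℝ, x ≠ 1 := by
      simp [ae_iff, measure_singleton]
    filter_upwards [h1, hne] with η h2 h0 h3
    have h4 := h2 ⟨by
      rcases lt_or_eq_of_le h3.1 with h5 | h5
      · linarith
      · exact absurd h5.symm h0, by linarith [h3.2]⟩
    rw [hGA (η - 1) (by linarith [h3.2])] at h4
    simp only [hA, hk] at h4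
    have e1 : η - 1 + 1 = η := by ring
    have e2 : η - 1 + 3 = η + 2 := by ring
    rw [e1, e2, hexp 2 η] at h4
    have h6 := heven 1
    rw [Int.cast_one, mul_one] at h6
    rw [h6, mul_one, ← mul_add] at h4
    rcases mul_eq_zero.1 h4 with h5 | h5
    · exact absurd h5 (Complex.exp_ne_zero _)
    · exact eq_neg_of_add_eq_zero_left h5
  · have h1 : ∀ᵐ η : ℝ, η - 1 ∈ Ioc (0:ℝ) 1 → G (η - 1) = 0 := by
      have := (quasi 1 (-1) one_ne_zero).ae hzero
      filter_upwards [this] with η h2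
      have h3 : 1 * η + -1 = η - 1 := by ring
      rw [h3] at h2
      exact h2
    filter_upwards [h1] with η h2 h3
    have h4 := h2 ⟨by linarith [h3.1], by linarith [h3.2]⟩
    rw [hGC (η - 1) (by linarith [h3.1])] at h4
    simp only [hC, hk] at h4
    have e1 : η - 1 + 1 = η := by ring
    have e2 : η - 1 + 5 = η + 4 := by ring
    rw [e1, e2, hexp 4 η] at h4
    have h6 := heven 2
    have e3 : (2 * ((2 : ℤ) : ℝ)) = 4 := by norm_num
    rw [e3] at h6
    rw [h6, mul_one, ← mul_add] at h4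
    rcases mul_eq_zero.1 h4 with h5 | h5
    · exact absurd h5 (Complex.exp_ne_zero _)
    · exact eq_neg_of_add_eq_zero_left h5

end Pool.Agent.R290.WaveBasis
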