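import Mathlib

/-!
Dilations and translations on `L²(ℝ)` and their conjugates under the Fourier transform.
-/

namespace Pool.Agent.R290.WaveFT

open MeasureTheory FourierTransform Complex
open scoped ENNReal InnerProductSpace SchwartzMap

/-- `L²(ℝ)` -/
abbrev L2 : Type := Lp (α := ℝ) ℂ 2 (volume : Measure ℝ)

lemma map_aff (α β : ℝ) (hα : α ≠ 0) :
    Measure.map (fun x => α * x + β) volume = ENNReal.ofReal |α⁻¹| • (volume : Measure ℝ) := by
  have h1 : (fun x : ℝ => α * x + β) = (fun x => x + β) ∘ (fun x => α * x) := rfl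
  rw [h1, ← Measure.map_map (by fun_prop) (by fun_prop), Real.map_volume_mul_left hα,
    Measure.map_smul, map_add_right_eq_self]

lemma quasi (α β : ℝ) (hα : α ≠ 0) :
    Measure.QuasiMeasurePreserving (fun x : ℝ => α * x + β) volume volume := by
  refine ⟨by fun_prop, ?_⟩
  rw [map_aff α β hα]
  exact Measure.smul_absolutelyContinuous

lemma memLp_comp (f : ℝ → ℂ) (hf : MemLp f 2 volume) (α β : ℝ) (hα : α ≠ 0) :
    MemLp (fun x => f (α * x + β)) 2 volume := by
  have h1 : MemLp f 2 (Measure.map (fun x => α * x + β) volume) := by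
    rw [map_aff α β hα]
    exact hf.smul_measure ENNReal.ofReal_ne_top
  exact (memLp_map_measure_iff h1.1 (by fun_prop)).1 h1

lemma eLpNorm_comp (f : ℝ → ℂ) (hf : MemLp f 2 volume) (α β : ℝ) (hα : α ≠ 0) :
    eLpNorm (fun x => f (α * x + β)) 2 volume =
      (ENNReal.ofReal |α⁻¹|) ^ (1 / 2 : ℝ) * eLpNorm f 2 volume := by
  have h1 : MemLp f 2 (Measure.map (fun x => α * x + β) volume) := by
    rw [map_aff α β hα]
    exact hf.smul_measure ENNReal.ofReal_ne_top
  have h2 := eLpNorm_map_measure (p := 2) h1.1 (f := fun x => α * x + β) (μ := volume)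
    (by fun_prop)
  have h3 : f ∘ (fun x => α * x + β) = fun x => f (α * x + β) := rfl
  rw [h3] at h2
  rw [← h2, map_aff α β hα, eLpNorm_smul_measure_of_ne_top (by norm_num)]
  simp

/-- the function underlying the operator `f ↦ m(x) f(αx+β)` -/
lemma memLp_op (f : L2) (m : ℝ → ℂ) (hm : Measurable m) (C : ℝ) (hC : ∀ x, ‖m x‖ ≤ C)
    (α β : ℝ) (hα : α ≠ 0) : MemLp (fun x => m x * f (α * x + β)) 2 volume := by
  have h1 := memLp_comp f (Lp.memLp f) α β hα
  refine MemLp.of_le_mul h1 (hm.aestronglyMeasurable.mul h1.1) (c := C) ?_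
  filter_upwards with x
  rw [norm_mul]
  exact mul_le_mul_of_nonneg_right (hC x) (norm_nonneg _)

/-- the operator `f ↦ m(x) f(αx+β)` on `L²` -/
noncomputable def op (m : ℝ → ℂ) (hm : Measurable m) (C : ℝ) (hC : ∀ x, ‖m x‖ ≤ C)
    (α β : ℝ) (hα : α ≠ 0) : L2 →L[ℂ] L2 :=
  LinearMap.mkContinuous
    { toFun := fun f => (memLp_op f m hm C hC α β hα).toLp _
      map_add' := by
        intro f g
        rw [← MemLp.toLp_add]
        apply (MemLp.toLp_eq_toLp_iff _ _).2
        have h := (quasi α β hα).ae (Lp.coeFn_add f g)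
        filter_upwards [h] with x hx
        simp only [Pi.add_apply] at hx ⊢
        rw [hx]; ring
      map_smul' := by
        intro c f
        simp only [RingHom.id_apply]
        rw [← MemLp.toLp_const_smul]
        apply (MemLp.toLp_eq_toLp_iff _ _).2
        have h := (quasi α β hα).ae (Lp.coeFn_smul c f)
        filter_upwards [h] with x hx
        simp only [Pi.smul_apply, smul_eq_mul] at hx ⊢
        rw [hx]; ring }
    (C * ((ENNReal.ofReal |α⁻¹|) ^ (1 / 2 : ℝ)).toReal) (by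
      intro f
      have hC0 : 0 ≤ C := (norm_nonneg _).trans (hC 0)
      have h1 : ‖(memLp_op f m hm C hC α β hα).toLp _‖ ≤
          C * ‖(memLp_comp f (Lp.memLp f) α β hα).toLp _‖ := by
        apply Lp.norm_le_mul_norm_of_ae_le_mul
        filter_upwards [(memLp_op f m hm C hC α β hα).coeFn_toLp,
          (memLp_comp f (Lp.memLp f) α β hα).coeFn_toLp] with x h2 h3
        rw [h2, h3, norm_mul]
        exact mul_le_mul_of_nonneg_right (hC x) (norm_nonneg _)
      refine h1.trans (le_of_eq ?_)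
      rw [Lp.norm_toLp, eLpNorm_comp f (Lp.memLp f) α β hα, ENNReal.toReal_mul, mul_assoc]
      rfl)

lemma op_coe (m : ℝ → ℂ) (hm : Measurable m) (C : ℝ) (hC : ∀ x, ‖m x‖ ≤ C)
    (α β : ℝ) (hα : α ≠ 0) (f : L2) :
    op m hm C hC α β hα f =ᵐ[volume] fun x => m x * f (α * x + β) :=
  (memLp_op f m hm C hC α β hα).coeFn_toLp

/-- the affine reparametrisation of a Schwartz function -/
noncomputable def schw (a lam : ℝ) (ha : a ≠ 0) (φ : 𝓢(ℝ, ℂ)) : 𝓢(ℝ, ℂ) :=
  SchwartzMap.compCLMOfAntilipschitz ℂ (g := fun x => a * x - lam) (K := ‖a‖₊⁻¹)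
    (by fun_prop)
    (AntilipschitzWith.of_le_mul_dist fun x y => by
      rw [Real.dist_eq, Real.dist_eq]
      have : a * x - lam - (a * y - lam) = a * (x - y) := by ring
      rw [this, abs_mul]
      have ha' : |a| ≠ 0 := abs_ne_zero.2 ha
      simp only [NNReal.coe_inv, coe_nnnorm, Real.norm_eq_abs]
      rw [← mul_assoc, inv_mul_cancel₀ ha', one_mul]) φ

lemma schw_apply (a lam : ℝ) (ha : a ≠ 0) (φ : 𝓢(ℝ, ℂ)) (x : ℝ) :
    schw a lam ha φ x = φ (a * x - lam) := rfl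

/-- Fourier transform of the reparametrised Schwartz function -/
lemma fourier_schw (a lam : ℝ) (ha : a ≠ 0) (φ : 𝓢(ℝ, ℂ)) (ξ : ℝ) :
    (𝓕 (schw a lam ha φ)) ξ =
      (|a|⁻¹ : ℝ) * (cexp (-(2 * Real.pi * lam * ξ / a : ℝ) * I) * (𝓕 φ) (ξ / a)) := by
  have e1 : (𝓕 (schw a lam ha φ)) ξ =
      ∫ v : ℝ, cexp (↑(-2 * Real.pi * v * ξ) * I) • φ (a * v - lam) := by
    rw [SchwartzMap.fourier_coe, Real.fourier_real_eq_integral_exp_smul]
    rfl
  have e2 : (𝓕 φ) (ξ / a) =
      ∫ v : ℝ, cexp (↑(-2 * Real.pi * v * (ξ / a)) * I) • φ v := by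
    rw [SchwartzMap.fourier_coe, Real.fourier_real_eq_integral_exp_smul]
  set H : ℝ → ℂ := fun y => cexp (↑(-2 * Real.pi * ((y + lam) / a) * ξ) * I) • φ y with hH
  have e3 : ∀ v : ℝ, cexp (↑(-2 * Real.pi * v * ξ) * I) • φ (a * v - lam) =
      (fun w => H (w - lam)) (a * v) := by
    intro v
    simp only [hH]
    have : (a * v - lam + lam) / a = v := by
      rw [sub_add_cancel, mul_div_cancel_left₀ _ ha]
    rw [this]
  rw [e1, integral_congr_ae (Filter.Eventually.of_forall e3),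
    Measure.integral_comp_mul_left (fun w => H (w - lam)) a,
    integral_sub_right_eq_self (fun w => H w) lam, e2, abs_inv, Complex.real_smul]
  congr 1
  rw [← integral_const_mul]
  refine integral_congr_ae (Filter.Eventually.of_forall fun y => ?_)
  simp only [hH, smul_eq_mul]
  rw [← mul_assoc, ← Complex.exp_add]
  congr 2
  push_cast
  have ha' : (a : ℂ) ≠ 0 := by exact_mod_cast ha
  field_simp
  ring

/-- the unitary dilation-translation operator `f ↦ √|a| f(a x - λ)` -/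
noncomputable def U (a lam : ℝ) (ha : a ≠ 0) : L2 →L[ℂ] L2 :=
  op (fun _ => ((√|a| : ℝ) : ℂ)) measurable_const (√|a|) (fun _ => by
    rw [Complex.norm_real, Real.norm_of_nonneg (Real.sqrt_nonneg _)]) a (-lam) ha

/-- its conjugate under the Fourier transform -/
noncomputable def V (a lam : ℝ) (ha : a ≠ 0) : L2 →L[ℂ] L2 :=
  op (fun ξ => ((√|a|⁻¹ : ℝ) : ℂ) * cexp (-(2 * Real.pi * lam * ξ / a : ℝ) * I))
    (by fun_prop) (√|a|⁻¹) (fun ξ => by
      rw [norm_mul, Complex.norm_real, Real.norm_of_nonneg (Real.sqrt_nonneg _)]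
      have : ‖cexp (-(2 * Real.pi * lam * ξ / a : ℝ) * I)‖ = 1 := by
        rw [← Complex.ofReal_neg, Complex.norm_exp_ofReal_mul_I]
      rw [this, mul_one]) a⁻¹ 0 (inv_ne_zero ha)

lemma U_coe (a lam : ℝ) (ha : a ≠ 0) (f : L2) :
    U a lam ha f =ᵐ[volume] fun x => ((√|a| : ℝ) : ℂ) * f (a * x - lam) := by
  have := op_coe (fun _ => ((√|a| : ℝ) : ℂ)) measurable_const (√|a|) (fun _ => by
    rw [Complex.norm_real, Real.norm_of_nonneg (Real.sqrt_nonneg _)]) a (-lam) ha f
  exact this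

lemma V_coe (a lam : ℝ) (ha : a ≠ 0) (f : L2) :
    V a lam ha f =ᵐ[volume] fun ξ => ((√|a|⁻¹ : ℝ) : ℂ) *
      cexp (-(2 * Real.pi * lam * ξ / a : ℝ) * I) * f (ξ / a) := by
  unfold V
  refine (op_coe _ _ _ _ _ _ _ f).trans ?_
  filter_upwards with ξ
  have : a⁻¹ * ξ + 0 = ξ / a := by rw [add_zero, div_eq_inv_mul]
  rw [this]

lemma fourier_U (a lam : ℝ) (ha : a ≠ 0) (f : L2) :
    (𝓕 (U a lam ha f) : L2) = V a lam ha (𝓕 f : L2) := by
  have hd := SchwartzMap.denseRange_toLpCLM (E := ℝ) (F := ℂ) (p := 2)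
    (μ := volume) ENNReal.ofNat_ne_top
  refine hd.induction_on (p := fun f : L2 => (𝓕 (U a lam ha f) : L2) = V a lam ha (𝓕 f : L2))
    f ?_ ?_
  · apply isClosed_eq
    · exact (Lp.fourierTransformₗᵢ ℝ ℂ).continuous.comp (U a lam ha).continuous
    · exact (V a lam ha).continuous.comp (Lp.fourierTransformₗᵢ ℝ ℂ).continuous
  · intro φ
    rw [SchwartzMap.toLpCLM_apply]
    have h1 : U a lam ha (φ.toLp 2) = (((√|a| : ℝ) : ℂ) • schw a lam ha φ).toLp 2 := by
      apply Lp.ext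
      refine (U_coe a lam ha _).trans ?_
      have h2 := (quasi a (-lam) ha).ae (SchwartzMap.coeFn_toLp φ 2 volume)
      have h3 := SchwartzMap.coeFn_toLp (((√|a| : ℝ) : ℂ) • schw a lam ha φ) 2 volume
      filter_upwards [h2, h3] with x h4 h5
      rw [h5]
      have h6 : a * x + -lam = a * x - lam := by ring
      rw [h6] at h4
      rw [h4]
      rfl
    rw [h1, SchwartzMap.toLp_fourier_eq, SchwartzMap.toLp_fourier_eq]
    apply Lp.ext
    refine Filter.EventuallyEq.trans ?_ (V_coe a lam ha _).symm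
    have h2 := (quasi a⁻¹ 0 (inv_ne_zero ha)).ae (SchwartzMap.coeFn_toLp (𝓕 φ) 2 volume)
    have h3 := SchwartzMap.coeFn_toLp (𝓕 (((√|a| : ℝ) : ℂ) • schw a lam ha φ)) 2 volume
    filter_upwards [h2, h3] with ξ h4 h5
    have h6 : a⁻¹ * ξ + 0 = ξ / a := by rw [add_zero, div_eq_inv_mul]
    rw [h6] at h4
    rw [h5, h4]
    have h7 : (𝓕 (((√|a| : ℝ) : ℂ) • schw a lam ha φ)) ξ =
        ((√|a| : ℝ) : ℂ) * (𝓕 (schw a lam ha φ)) ξ := by
      rw [FourierTransform.fourier_smul]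
      rfl
    rw [h7, fourier_schw]
    have h8 : ((√|a| : ℝ) : ℂ) * ((|a|⁻¹ : ℝ) : ℂ) = ((√|a|⁻¹ : ℝ) : ℂ) := by
      rw [← Complex.ofReal_mul]
      congr 1
      have h9 : 0 < |a| := abs_pos.2 ha
      rw [Real.sqrt_inv]
      have h10 : √|a| ≠ 0 := (Real.sqrt_pos.2 h9).ne'
      apply eq_inv_of_mul_eq_one_left
      have h11 : √|a| * √|a| = |a| := Real.mul_self_sqrt h9.le
      calc √|a| * |a|⁻¹ * √|a| = (√|a| * √|a|) * |a|⁻¹ := by ring
        _ = 1 := by rw [h11, mul_inv_cancel₀ h9.ne']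
    rw [← mul_assoc, h8]
    ring

end Pool.Agent.R290.WaveFT
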