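import Pool.Agent.R290.WaveMain

/-!
Packaging: wavelet sets with respect to sets of pairs (translation, automorphism) and the failure
of multiplicative tiling.
-/

namespace Pool.Agent.R290.WaveFinal

open MeasureTheory Complex Set FourierTransform
open scoped ENNReal InnerProductSpace
open Pool.Agent.R290.WaveFT Pool.Agent.R290.WaveBasis Pool.Agent.R290.WaveOrth
open Pool.Agent.R290.WaveMain

/-- multiplication by `c` as an automorphism of `ℝ` -/
noncomputable def mulE (c : ℝ) (hc : c ≠ 0) : ℝ ≃ₜ+ ℝ where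
  toFun x := c * x
  invFun x := c⁻¹ * x
  left_inv x := by
    change c⁻¹ * (c * x) = x
    rw [← mul_assoc, inv_mul_cancel₀ hc, one_mul]
  right_inv x := by
    change c * (c⁻¹ * x) = x
    rw [← mul_assoc, mul_inv_cancel₀ hc, one_mul]
  map_add' x y := mul_add c x y
  continuous_toFun := by fun_prop
  continuous_invFun := by fun_prop

lemma mulE_apply (c : ℝ) (hc : c ≠ 0) (x : ℝ) : mulE c hc x = c * x := rfl

lemma auto_apply (α : ℝ ≃ₜ+ ℝ) (x : ℝ) : α x = α 1 * x := by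
  have h := map_real_smul α α.continuous x (1:ℝ)
  rw [smul_eq_mul, smul_eq_mul, mul_one] at h
  rw [h, mul_comm]

lemma auto_ne (α : ℝ ≃ₜ+ ℝ) : α 1 ≠ 0 := by
  intro h
  have h1 : α 1 = α 0 := by rw [h, map_zero]
  exact one_ne_zero (α.injective h1)

lemma auto_ext {α β : ℝ ≃ₜ+ ℝ} (h : α 1 = β 1) : α = β := by
  apply DFunLike.ext
  intro x
  rw [auto_apply α, auto_apply β, h]

lemma auto_eq_mulE (α : ℝ ≃ₜ+ ℝ) : α = mulE (α 1) (auto_ne α) := by
  apply auto_ext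
  rw [mulE_apply, mul_one]

lemma auto_image (α : ℝ ≃ₜ+ ℝ) (E : Set ℝ) : α '' E = (fun x => (α 1)⁻¹ * x) ⁻¹' E := by
  ext y
  constructor
  · rintro ⟨x, hx, rfl⟩
    simp only [mem_preimage]
    rw [auto_apply α x, ← mul_assoc, inv_mul_cancel₀ (auto_ne α), one_mul]
    exact hx
  · intro hy
    refine ⟨(α 1)⁻¹ * y, hy, ?_⟩
    rw [auto_apply α, ← mul_assoc, mul_inv_cancel₀ (auto_ne α), one_mul]

lemma auto_vol (α : ℝ ≃ₜ+ ℝ) (E : Set ℝ) :
    volume (α '' E) = ENNReal.ofReal |α 1| * volume E := by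
  rw [auto_image, Real.volume_preimage_mul_left (inv_ne_zero (auto_ne α)), inv_inv]

/-- the modulus of an automorphism -/
lemma auto_mod (α : ℝ ≃ₜ+ ℝ) : (volume (α '' Icc 0 1)).toReal = |α 1| := by
  rw [auto_vol, Real.volume_Icc, ENNReal.toReal_mul, ENNReal.toReal_ofReal (abs_nonneg _)]
  simp

lemma V_congr {a b lam : ℝ} (ha : a ≠ 0) (hb : b ≠ 0) (h : a = b) (f : L2) :
    V a lam ha f = V b lam hb f := by
  subst h
  rfl

lemma e1_aux (u c : ℝ) (hc : 0 < c) (i : Idx) :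
    (𝓕 (U ((mulE (dil c i) (dil_ne c hc i)) 1) (fr u i)
        (auto_ne _) (𝓕⁻ ind : L2)) : L2) = v u c hc i := by
  rw [fourier_U, fourier_fourierInv_eq]
  unfold v
  exact V_congr _ _ (by rw [mulE_apply, mul_one]) _

/-- The family of all `√Δ(a) ψ(a x - λ)` -/
lemma wavelet (u c : ℝ) (hc : 0 < c) (B : Set (ℝ × (ℝ ≃ₜ+ ℝ)))
    (hB : B = range fun i : Idx => (fr u i, mulE (dil c i) (dil_ne c hc i))) :
    B.Countable ∧ ∃ ψ : L2, (𝓕 ψ : L2) =ᵐ[volume] Om.indicator (fun _ => (1:ℂ)) ∧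
      ∃ Φ : ℝ × (ℝ ≃ₜ+ ℝ) → L2,
        (∀ p ∈ B, Φ p =ᵐ[volume] fun x =>
          ((√(volume (p.2 '' Icc 0 1)).toReal : ℝ) : ℂ) * ψ (p.2 x - p.1)) ∧
        (∀ p ∈ B, ∀ q ∈ B, p ≠ q → ⟪Φ p, Φ q⟫_ℂ = 0) ∧ (∀ p ∈ B, Φ p ≠ 0) ∧
        (Submodule.span ℂ (Φ '' B)).topologicalClosure = ⊤ := by
  refine ⟨?_, (𝓕⁻ ind : L2), ?_, fun p => U (p.2 1) p.1 (auto_ne p.2) (𝓕⁻ ind : L2), ?_, ?_, ?_, ?_⟩
  · rw [hB]; exact countable_range _
  · rw [fourier_fourierInv_eq]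
    exact ind_coe
  · intro p _
    refine (U_coe _ _ _ _).trans ?_
    filter_upwards with x
    rw [auto_mod, auto_apply p.2 x]
  · intro p hp q hq hpq
    rw [hB] at hp hq
    obtain ⟨i, rfl⟩ := hp
    obtain ⟨j, rfl⟩ := hq
    have hij : i ≠ j := by
      rintro rfl
      exact hpq rfl
    have e1 := fun i => e1_aux u c hc i
    rw [← Lp.inner_fourier_eq]
    simp only
    rw [e1, e1]
    exact orth u c hc i j hij
  · intro p hp h0
    rw [hB] at hp
    obtain ⟨i, rfl⟩ := hp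
    have e1 := fun i => e1_aux u c hc i
    simp only at h0
    have h1 := e1 i
    rw [h0] at h1
    have h2 : v u c hc i = 0 := by
      rw [← h1]
      apply norm_eq_zero.1
      rw [Lp.norm_fourier_eq, norm_zero]
    have h3 := v_coe u c hc i
    rw [h2] at h3
    have h4 : ∀ᵐ ξ : ℝ, ξ / dil c i ∉ Om := by
      filter_upwards [h3, Lp.coeFn_zero ℂ 2 (volume : Measure ℝ)] with ξ h5 h6 h7
      rw [h5, indicator_of_mem h7] at h6
      simp only [Pi.zero_apply, mul_one, mul_eq_zero] at h6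
      rcases h6 with h6 | h6
      · have h8 : (√|dil c i|⁻¹ : ℝ) ≠ 0 := by
          apply (Real.sqrt_pos.2 _).ne'
          exact inv_pos.2 (abs_pos.2 (dil_ne c hc i))
        exact h8 (by exact_mod_cast h6)
      · exact Complex.exp_ne_zero _ h6
    have h5 := (quasi (dil c i) 0 (dil_ne c hc i)).ae h4
    have h6 : volume Om = 0 := by
      have : ∀ᵐ η : ℝ, η ∉ Om := by
        filter_upwards [h5] with η h7
        rwa [add_zero, mul_div_cancel_left₀ _ (dil_ne c hc i)] at h7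
      rw [ae_iff] at this
      simpa using this
    exact Om_vol_pos.ne' h6
  · rw [Submodule.topologicalClosure_eq_top_iff, Submodule.eq_bot_iff]
    intro f hf
    have e1 := fun i => e1_aux u c hc i
    have h1 : ∀ i, ⟪v u c hc i, (𝓕 f : L2)⟫_ℂ = 0 := by
      intro i
      rw [← e1 i, Lp.inner_fourier_eq]
      have hm : (fr u i, mulE (dil c i) (dil_ne c hc i)) ∈ B := by
        rw [hB]
        exact mem_range_self i
      have h9 := mem_image_of_mem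
          (fun p : ℝ × (ℝ ≃ₜ+ ℝ) => U (p.2 1) p.1 (auto_ne p.2) (𝓕⁻ ind : L2)) hm
      have h10 := Submodule.inner_right_of_mem_orthogonal (Submodule.subset_span h9) hf
      exact h10
    have h2 := total u c hc (𝓕 f : L2) h1
    apply norm_eq_zero.1
    rw [← Lp.norm_fourier_eq, h2, norm_zero]

lemma sub_A : Ioo (3/7:ℝ) (5/7) ⊆ Om := fun _ hx => Or.inl (Or.inl (Or.inl ⟨hx.1.le, hx.2⟩))
lemma sub_B : Ioo (1:ℝ) 2 ⊆ Om := fun _ hx => Or.inl (Or.inl (Or.inr ⟨hx.1.le, hx.2⟩))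
lemma sub_C : Ioo (3:ℝ) (24/7) ⊆ Om := fun _ hx => Or.inl (Or.inr ⟨hx.1.le, hx.2⟩)

lemma ov (α β : ℝ ≃ₜ+ ℝ) (hα : 0 < α 1) (hβ : 0 < β 1) {p q r s : ℝ} (h1 : Ioo p q ⊆ Om)
    (h2 : Ioo r s ⊆ Om) (hpq : p < q) (hrs : r < s) (h3 : α 1 * p < β 1 * s)
    (h4 : β 1 * r < α 1 * q) : 0 < volume (α '' Om ∩ β '' Om) := by
  have h5 : Ioo (max (α 1 * p) (β 1 * r)) (min (α 1 * q) (β 1 * s)) ⊆ α '' Om ∩ β '' Om := by
    rintro x ⟨h6, h7⟩
    rw [max_lt_iff] at h6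
    rw [lt_min_iff] at h7
    constructor
    · rw [auto_image]
      apply h1
      change (α 1)⁻¹ * x ∈ Ioo p q
      rw [← div_eq_inv_mul]
      exact ⟨by rw [lt_div_iff₀ hα]; linarith [h6.1], by rw [div_lt_iff₀ hα]; linarith [h7.1]⟩
    · rw [auto_image]
      apply h2
      change (β 1)⁻¹ * x ∈ Ioo r s
      rw [← div_eq_inv_mul]
      exact ⟨by rw [lt_div_iff₀ hβ]; linarith [h6.2], by rw [div_lt_iff₀ hβ]; linarith [h7.2]⟩
  refine lt_of_lt_of_le ?_ (measure_mono h5)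
  rw [Real.volume_Ioo]
  rw [ENNReal.ofReal_pos, sub_pos, max_lt_iff, lt_min_iff, lt_min_iff]
  exact ⟨⟨mul_lt_mul_of_pos_left hpq hα, h3⟩, h4, mul_lt_mul_of_pos_left hrs hβ⟩

/-- The set `Ω` does not tile multiplicatively. -/
lemma not_tiles (A' : Set (ℝ ≃ₜ+ ℝ))
    (h : ∀ᵐ ξ : ℝ, ∑' α : A', ((α : ℝ ≃ₜ+ ℝ) '' Om).indicator (fun _ => (1 : ℝ≥0∞)) ξ = 1) :
    False := by
  classical
  have hcov : ∀ᵐ ξ : ℝ, ∃ α ∈ A', ξ ∈ α '' Om := by
    filter_upwards [h] with ξ h1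
    by_contra hcon
    push Not at hcon
    have : ∑' α : A', ((α : ℝ ≃ₜ+ ℝ) '' Om).indicator (fun _ => (1 : ℝ≥0∞)) ξ = 0 := by
      rw [ENNReal.tsum_eq_zero]
      intro α
      exact indicator_of_notMem (hcon α α.2) _
    rw [this] at h1
    exact zero_ne_one h1
  have hdis : ∀ α ∈ A', ∀ β ∈ A', α ≠ β → volume (α '' Om ∩ β '' Om) = 0 := by
    intro α hα β hβ hne
    refine measure_mono_null ?_ (ae_iff.1 h)
    rintro ξ ⟨h1, h2⟩
    simp only [mem_ofPred_eq]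
    intro h3
    have h4 : ∑ γ ∈ ({(⟨α, hα⟩ : A'), ⟨β, hβ⟩} : Finset A'),
        ((γ : ℝ ≃ₜ+ ℝ) '' Om).indicator (fun _ => (1 : ℝ≥0∞)) ξ ≤ 1 :=
      (ENNReal.sum_le_tsum _).trans_eq h3
    rw [Finset.sum_pair (by
      intro h5
      exact hne (congrArg Subtype.val h5)), indicator_of_mem h1, indicator_of_mem h2] at h4
    exact absurd h4 (by norm_num)
  have hex : ∀ (p q : ℝ), p < q → 0 ≤ p → ∃ α ∈ A', 0 < α 1 ∧ ∃ ξ ∈ Ioo p q, ξ ∈ α '' Om := by
    intro p q hpq hp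
    have h1 : ∃ ξ ∈ Ioo p q, ∃ α ∈ A', ξ ∈ α '' Om := by
      by_contra hcon
      push Not at hcon
      have h2 : volume (Ioo p q) = 0 := by
        refine measure_mono_null ?_ (ae_iff.1 hcov)
        intro ξ hξ h3
        obtain ⟨α, h4, h5⟩ := h3
        exact hcon ξ hξ α h4 h5
      rw [Real.volume_Ioo, ENNReal.ofReal_eq_zero] at h2
      linarith
    obtain ⟨ξ, h2, α, h3, h4⟩ := h1
    refine ⟨α, h3, ?_, ξ, h2, h4⟩
    obtain ⟨x, h5, rfl⟩ := h4
    have h6 := Om_pos h5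
    have h7 : 0 < α x := lt_of_le_of_lt hp h2.1
    rw [auto_apply] at h7
    exact (pos_iff_pos_of_mul_pos h7).2 h6
  obtain ⟨β, hβ, hβ0, -⟩ := hex 0 1 one_pos le_rfl
  obtain ⟨α, hα, hα0, ξ, ⟨h1, h2⟩, x, hx, rfl⟩ :=
    hex (3/4 * β 1) (β 1) (by linarith) (by positivity)
  rw [auto_apply α x] at h1 h2
  have hne : α ≠ β := by
    rintro rfl
    have h3 : x < 1 := by
      by_contra hcon
      have := mul_le_mul_of_nonneg_left (not_lt.1 hcon) hβ0.le
      linarith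
    have h4 : 3/4 < x := by
      by_contra hcon
      have := mul_le_mul_of_nonneg_left (not_lt.1 hcon) hβ0.le
      linarith
    rcases hx with ((⟨h5, h6⟩ | ⟨h5, h6⟩) | ⟨h5, h6⟩) | ⟨h5, h6⟩ <;> linarith
  have hz := hdis α hα β hβ hne
  have hpos : 0 < volume (α '' Om ∩ β '' Om) := by
    set a := α 1 with ha
    set b := β 1 with hb
    rcases hx with ((⟨h5, h6⟩ | ⟨h5, h6⟩) | ⟨h5, h6⟩) | ⟨h5, h6⟩
    · have h7 : a * (3/7) ≤ a * x := mul_le_mul_of_nonneg_left h5 hα0.le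
      have h8 : a * x < a * (5/7) := mul_lt_mul_of_pos_left h6 hα0
      rcases lt_or_ge a (2 * b) with h9 | h9
      · refine ov α β hα0 hβ0 sub_B sub_B (by norm_num) (by norm_num) ?_ ?_ <;> linarith
      · refine ov α β hα0 hβ0 sub_B sub_C (by norm_num) (by norm_num) ?_ ?_ <;> linarith
    · have h7 : a * 1 ≤ a * x := mul_le_mul_of_nonneg_left h5 hα0.le
      have h8 : a * x < a * 2 := mul_lt_mul_of_pos_left h6 hα0
      rcases lt_or_ge (1/2 * b) a with h9 | h9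
      · refine ov α β hα0 hβ0 sub_B sub_B (by norm_num) (by norm_num) ?_ ?_ <;> linarith
      · refine ov α β hα0 hβ0 sub_B sub_A (by norm_num) (by norm_num) ?_ ?_ <;> linarith
    · have h7 : a * 3 ≤ a * x := mul_le_mul_of_nonneg_left h5 hα0.le
      have h8 : a * x < a * (24/7) := mul_lt_mul_of_pos_left h6 hα0
      refine ov α β hα0 hβ0 sub_B sub_A (by norm_num) (by norm_num) ?_ ?_ <;> linarith
    · have h7 : a * (40/7) ≤ a * x := mul_le_mul_of_nonneg_left h5 hα0.le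
      have h8 : a * x < a * 6 := mul_lt_mul_of_pos_left h6 hα0
      refine ov α β hα0 hβ0 sub_C sub_A (by norm_num) (by norm_num) ?_ ?_ <;> linarith
  exact hpos.ne' hz

end Pool.Agent.R290.WaveFinal
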