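import Pool.Agent.R290.WaveBasis

/-!
Vanishing integrals for the explicit set.
-/

namespace Pool.Agent.R290.WaveOrth

open MeasureTheory Complex Set
open scoped ENNReal InnerProductSpace Interval
open Pool.Agent.R290.WaveFT Pool.Agent.R290.WaveBasis

/-- exponentials -/
noncomputable def E (β η : ℝ) : ℂ := cexp (((2 * Real.pi * β * η : ℝ) : ℂ) * I)

lemma E_cont (β : ℝ) : Continuous (E β) := by unfold E; fun_prop

lemma E_add (β x y : ℝ) : E β (x + y) = E β x * E β y := by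
  unfold E
  rw [← Complex.exp_add]
  congr 1
  push_cast
  ring

lemma E_int (j : ℤ) (x : ℝ) (hx : (j : ℝ) = x) : cexp (((2 * Real.pi * x : ℝ) : ℂ) * I) = 1 := by
  have : (((2 * Real.pi * x : ℝ) : ℂ) * I) = (j : ℂ) * (2 * Real.pi * I) := by
    rw [← hx]; push_cast; ring
  rw [this, Complex.exp_int_mul_two_pi_mul_I]

lemma E_half (j : ℤ) (x : ℝ) (hx : (j : ℝ) + 1 / 2 = x) :
    cexp (((2 * Real.pi * x : ℝ) : ℂ) * I) = -1 := by
  have : (((2 * Real.pi * x : ℝ) : ℂ) * I) = (j : ℂ) * (2 * Real.pi * I) + Real.pi * I := by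
    rw [← hx]; push_cast; ring
  rw [this, Complex.exp_add, Complex.exp_int_mul_two_pi_mul_I, Complex.exp_pi_mul_I, one_mul]

lemma int_E (β a b : ℝ) (hβ : β ≠ 0) :
    ∫ η in a..b, E β η = (E β b - E β a) / ((2 * Real.pi * β : ℝ) * I) := by
  have hc : ((2 * Real.pi * β : ℝ) : ℂ) * I ≠ 0 := by
    apply mul_ne_zero _ I_ne_zero
    exact_mod_cast (by positivity : (2 * Real.pi * β : ℝ) ≠ 0)
  have h := integral_exp_mul_complex (a := a) (b := b) hc
  have h1 : ∀ x : ℝ, E β x = cexp (((2 * Real.pi * β : ℝ) : ℂ) * I * x) := by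
    intro x
    unfold E
    congr 1
    push_cast
    ring
  simp only [h1]
  exact h

lemma inter_two (η : ℝ) : (η ∈ Om ∧ η / 2 ∈ Om) ↔ η ∈ Ico (1:ℝ) (10/7) ∪ Ico 3 (24/7) := by
  constructor
  · rintro ⟨((⟨h1, h2⟩ | ⟨h1, h2⟩) | ⟨h1, h2⟩) | ⟨h1, h2⟩,
      ((⟨h3, h4⟩ | ⟨h3, h4⟩) | ⟨h3, h4⟩) | ⟨h3, h4⟩⟩
    all_goals first
      | (exfalso; linarith)
      | (left; constructor <;> linarith)
      | (right; constructor <;> linarith)
  · rintro (⟨h1, h2⟩ | ⟨h1, h2⟩)
    · refine ⟨Or.inl (Or.inl (Or.inr ⟨by linarith, by linarith⟩)),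
        Or.inl (Or.inl (Or.inl ⟨by linarith, by linarith⟩))⟩
    · refine ⟨Or.inl (Or.inr ⟨by linarith, by linarith⟩),
        Or.inl (Or.inl (Or.inr ⟨by linarith, by linarith⟩))⟩

lemma inter_four (η : ℝ) : (η ∈ Om ∧ η / 4 ∈ Om) ↔ η ∈ Ico (12/7:ℝ) 2 ∪ Ico (40/7) 6 := by
  constructor
  · rintro ⟨((⟨h1, h2⟩ | ⟨h1, h2⟩) | ⟨h1, h2⟩) | ⟨h1, h2⟩,
      ((⟨h3, h4⟩ | ⟨h3, h4⟩) | ⟨h3, h4⟩) | ⟨h3, h4⟩⟩
    all_goals first
      | (exfalso; linarith)
      | (left; constructor <;> linarith)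
      | (right; constructor <;> linarith)
  · rintro (⟨h1, h2⟩ | ⟨h1, h2⟩)
    · refine ⟨Or.inl (Or.inl (Or.inr ⟨by linarith, by linarith⟩)),
        Or.inl (Or.inl (Or.inl ⟨by linarith, by linarith⟩))⟩
    · refine ⟨Or.inr ⟨by linarith, by linarith⟩,
        Or.inl (Or.inl (Or.inr ⟨by linarith, by linarith⟩))⟩

lemma inter_big (η : ℝ) (k : ℕ) (hk : 3 ≤ k) : ¬ (η ∈ Om ∧ η / 2 ^ k ∈ Om) := by
  rintro ⟨h1, h2⟩
  have hlt := Om_lt h1
  have hge : (3:ℝ) / 7 ≤ η / 2 ^ k := by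
    rcases h2 with ((⟨h, _⟩ | ⟨h, _⟩) | ⟨h, _⟩) | ⟨h, _⟩ <;> linarith
  have hpos : (0:ℝ) < 2 ^ k := by positivity
  rw [le_div_iff₀ hpos] at hge
  rcases Nat.lt_or_ge k 4 with h4 | h4
  · have hk3 : k = 3 := by omega
    subst hk3
    norm_num at hge h2
    rcases h1 with ((⟨h3, h4⟩ | ⟨h3, h4⟩) | ⟨h3, h4⟩) | ⟨h3, h4⟩
    · linarith
    · linarith
    · linarith
    · rcases h2 with ((⟨h5, h6⟩ | ⟨h5, h6⟩) | ⟨h5, h6⟩) | ⟨h5, h6⟩ <;> linarith
  · have : (2:ℝ) ^ 4 ≤ 2 ^ k := pow_le_pow_right₀ (by norm_num) h4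
    norm_num at this
    linarith

lemma int_two_pieces (F : ℝ → ℂ) (hF : Continuous F) (a b c d : ℝ) (hab : a ≤ b) (hbc : b ≤ c)
    (hcd : c ≤ d) : ∫ η in Ico a b ∪ Ico c d, F η = (∫ η in a..b, F η) + ∫ η in c..d, F η := by
  have hI : ∀ a b : ℝ, a ≤ b → IntegrableOn F (Ico a b) volume := by
    intro a b hab
    rw [integrableOn_Ico_iff_integrableOn_Ioo, ← integrableOn_Ioc_iff_integrableOn_Ioo]
    exact (intervalIntegrable_iff_integrableOn_Ioc_of_le hab).1 (hF.intervalIntegrable a b)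
  have hE : ∀ a b : ℝ, a ≤ b → ∫ η in Ico a b, F η = ∫ η in a..b, F η := by
    intro a b hab
    rw [intervalIntegral.integral_of_le hab, integral_Ico_eq_integral_Ioo,
      integral_Ioc_eq_integral_Ioo]
  have d1 : Disjoint (Ico a b) (Ico c d) := by
    rw [Set.disjoint_left]; rintro x ⟨_, h1⟩ ⟨h2, _⟩; linarith
  rw [setIntegral_union d1 measurableSet_Ico (hI a b hab) (hI c d hcd), hE a b hab, hE c d hcd]

/-- the overlap integrals vanish -/
lemma overlap (k : ℕ) (m m' : ℤ) (h : k = 0 → m ≠ m') (β : ℝ)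
    (hβ : β = (m - 1 / 2) / 2 ^ k - (m' - 1 / 2)) :
    ∫ η in {η | η ∈ Om ∧ η / 2 ^ k ∈ Om}, E β η = 0 := by
  rcases Nat.lt_or_ge k 3 with hk | hk
  swap
  · have : {η | η ∈ Om ∧ η / 2 ^ k ∈ Om} = ∅ := by
      ext η
      simp only [mem_ofPred_eq, mem_empty_iff_false, iff_false]
      exact inter_big η k hk
    rw [this]
    simp
  have hrew : ∀ (S : Set ℝ), (∀ η : ℝ, (η ∈ Om ∧ η / 2 ^ k ∈ Om) ↔ η ∈ S) →
      ∫ η in {η | η ∈ Om ∧ η / 2 ^ k ∈ Om}, E β η = ∫ η in S, E β η := by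
    intro S hiff
    have : {η | η ∈ Om ∧ η / 2 ^ k ∈ Om} = S := by
      ext η
      exact hiff η
    rw [this]
  interval_cases k
  · -- k = 0
    have hm := h rfl
    have hb : β = ((m - m' : ℤ) : ℝ) := by rw [hβ]; push_cast; ring
    have hne : β ≠ 0 := by
      rw [hb]
      exact_mod_cast sub_ne_zero.2 hm
    rw [hrew Om (by intro η; simp), int_Om _
      (fun a b => (E_cont β).intervalIntegrable a b), int_E _ _ _ hne, int_E _ _ _ hne,
      int_E _ _ _ hne, int_E _ _ _ hne, ← add_div, ← add_div, ← add_div]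
    have hone : ∀ j : ℤ, E β j = 1 := by
      intro j
      unfold E
      have : (2 * Real.pi * β * (j:ℝ)) = 2 * Real.pi * (β * j) := by ring
      rw [this]
      exact E_int ((m - m') * j) _ (by rw [hb]; push_cast; ring)
    have e1 : E β 1 = 1 := by simpa using hone 1
    have e2 : E β 2 = 1 := by simpa using hone 2
    have e3 : E β 3 = 1 := by simpa using hone 3
    have e6 : E β 6 = 1 := by simpa using hone 6
    have e5 : E β 5 = 1 := by simpa using hone 5
    have e24 : E β (24/7) = E β (3/7) := by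
      have : (24/7 : ℝ) = 3/7 + 3 := by norm_num
      rw [this, E_add, e3, mul_one]
    have e40 : E β (40/7) = E β (5/7) := by
      have : (40/7 : ℝ) = 5/7 + 5 := by norm_num
      rw [this, E_add, e5, mul_one]
    rw [e1, e2, e3, e6, e24, e40]
    have : E β (5 / 7) - E β (3 / 7) + (1 - 1) + (E β (3 / 7) - 1) + (1 - E β (5 / 7)) = 0 := by
      ring
    rw [this, zero_div]
  · -- k = 1
    have hb : 4 * β = ((2 * m - 4 * m' + 1 : ℤ) : ℝ) := by
      rw [hβ]; push_cast; ring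
    have hne : β ≠ 0 := by
      intro h0
      rw [h0, mul_zero] at hb
      have : (2 * m - 4 * m' + 1 : ℤ) = 0 := by exact_mod_cast hb.symm
      omega
    rw [hrew (Ico (1:ℝ) (10/7) ∪ Ico 3 (24/7))
      (by intro η; simpa using inter_two η),
      int_two_pieces _ (E_cont β) _ _ _ _ (by norm_num) (by norm_num) (by norm_num),
      int_E _ _ _ hne, int_E _ _ _ hne, ← add_div]
    have hs : E β 2 = -1 := by
      unfold E
      have : (2 * Real.pi * β * (2:ℝ)) = 2 * Real.pi * (β * 2) := by ring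
      rw [this]
      exact E_half (m - 2 * m') _ (by push_cast at hb ⊢; linarith)
    have e1 : E β 3 = - E β 1 := by
      have : (3 : ℝ) = 1 + 2 := by norm_num
      rw [this, E_add, hs]; ring
    have e2 : E β (24/7) = - E β (10/7) := by
      have : (24/7 : ℝ) = 10/7 + 2 := by norm_num
      rw [this, E_add, hs]; ring
    rw [e1, e2]
    have : E β (10 / 7) - E β 1 + (-E β (10 / 7) - -E β 1) = 0 := by ring
    rw [this, zero_div]
  · -- k = 2
    have hb : 8 * β = ((2 * m - 8 * m' + 3 : ℤ) : ℝ) := by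
      rw [hβ]; push_cast; ring
    have hne : β ≠ 0 := by
      intro h0
      rw [h0, mul_zero] at hb
      have : (2 * m - 8 * m' + 3 : ℤ) = 0 := by exact_mod_cast hb.symm
      omega
    rw [hrew (Ico (12/7:ℝ) 2 ∪ Ico (40/7) 6)
      (by
        intro η
        have : (2:ℝ) ^ 2 = 4 := by norm_num
        rw [this]
        exact inter_four η),
      int_two_pieces _ (E_cont β) _ _ _ _ (by norm_num) (by norm_num) (by norm_num),
      int_E _ _ _ hne, int_E _ _ _ hne, ← add_div]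
    have hs : E β 4 = -1 := by
      unfold E
      have : (2 * Real.pi * β * (4:ℝ)) = 2 * Real.pi * (β * 4) := by ring
      rw [this]
      exact E_half (m - 4 * m' + 1) _ (by push_cast at hb ⊢; linarith)
    have e1 : E β 6 = - E β 2 := by
      have : (6 : ℝ) = 2 + 4 := by norm_num
      rw [this, E_add, hs]; ring
    have e2 : E β (40/7) = - E β (12/7) := by
      have : (40/7 : ℝ) = 12/7 + 4 := by norm_num
      rw [this, E_add, hs]; ring
    rw [e1, e2]
    have : E β 2 - E β (12 / 7) + (-E β 2 - -E β (12 / 7)) = 0 := by ring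
    rw [this, zero_div]

end Pool.Agent.R290.WaveOrth
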